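import Pool.Agent.Lib.MP_3e612f_nt.ZE.Defs
import Pool.Agent.Lib.MP_3e612f_nt.NF.E.Defs

/-! Project ZE, parts H and I: definitions. -/

set_option autoImplicit false

namespace Pool.Agent.Lib.MP_3e612f_nt.ZE

open Finset MeasureTheory Filter Topology
open Pool.Agent.Lib.MP_3e612f_nt.PI (mc)
open Pool.Agent.Lib.MP_3e612f_nt.NF (GoodR)

/-- `ν` is a logarithmic limit measure of the set `F` of sequences: a limit of the averages of the point masses at `S^n y_x`, `n < h`, `x < N` with weight `1/(x+1)`, `y ∈ F`, `h → ∞`, `log N / h → ∞`. -/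
def LLim {Y : Type} [TopologicalSpace Y] [MeasurableSpace Y] (S : Y → Y) (F : Set (ℕ → Y)) (ν : Measure Y) : Prop :=
  ∃ (N h : ℕ → ℕ) (y : ℕ → ℕ → Y), (∀ k, y k ∈ F) ∧ Tendsto h atTop atTop ∧
    Tendsto (fun k => Real.log (N k) / (h k : ℝ)) atTop atTop ∧ ∀ φ : C(Y, ℝ),
      Tendsto (fun k => (∑ x ∈ range (N k), (∑ n ∈ range (h k), φ (S^[n] (y k x))) / ((x : ℝ) + 1)) /
        (Real.log (N k) * (h k : ℝ))) atTop (𝓝 (∫ z, φ z ∂ν))

/-- Zero entropy of `ν` for the function `g` (Katok's form): for all large `J` there are at most `exp (δ J)` points such that, outside of a set of measure at most `ε`, each word `(g (S^n y))_{n < J}` is `ε`-close in mean to the word of one of these points. -/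
def ZEnt {Y : Type} [MeasurableSpace Y] (S : Y → Y) (g : Y → ℂ) (ν : Measure Y) : Prop :=
  ∀ ε : ℝ, 0 < ε → ∀ δ : ℝ, 0 < δ → ∃ J₀ : ℕ, ∀ J ≥ J₀, ∃ C : Finset Y, (C.card : ℝ) ≤ Real.exp (δ * J) ∧
    ν {y | ∀ c ∈ C, ε * J ≤ ∑ n ∈ range J, ‖g (S^[n] y) - g (S^[n] c)‖} ≤ ENNReal.ofReal ε

/-- the word `g (S^n y) - f (T^n ξ)` -/
def wd {E Y : Type} (T : E → E) (S : Y → Y) (f : E → ℂ) (g : Y → ℂ) (p : E × Y) (n : ℕ) : ℂ := g (S^[n] p.2) - f (T^[n] p.1)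

/-- `ν` is modelled up to `t`, in the local box norm of order `K + 1` (to the power `2 ^ (K + 1)`), by a locally uniform function `f` on some system; the scale `HH` is a bounded invariant function. -/
def ModU {Y : Type} [MeasurableSpace Y] (S : Y → Y) (g : Y → ℂ) (K : ℕ) (ν : Measure Y) (t : ℝ) : Prop :=
  ∃ (E : Type) (_ : MeasurableSpace E) (T : E → E) (f : E → ℂ) (HH : E → ℕ) (Hm : ℕ) (lam : Measure (E × Y)),
    Measurable f ∧ (∀ x, ‖f x‖ ≤ 1 / 2) ∧ Measurable HH ∧ (∀ x, HH (T x) = HH x) ∧ (∀ x, 1 ≤ HH x ∧ HH x ≤ Hm) ∧ GoodR T f ∧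
    IsProbabilityMeasure lam ∧ MeasurePreserving (Prod.map T S) lam lam ∧ lam.map Prod.snd = ν ∧
    ∫ p, psi (HH p.1) K (wd T S f g p) 0 ∂lam ≤ t

/-- the maximal correlation of the Moebius function on the window of length `J` at `n` with the words of `W` -/
noncomputable def maxw (W : Finset (ℕ → ℂ)) (J : ℕ) (n : ℕ) : ℝ := W.fold max 0 (fun w => ‖(∑ j ∈ range J, mc (n + j) * w j) / (J : ℂ)‖)

/-- the statement of Theorem L (part G) -/
def StmtL : Prop := ∀ V : Ultrafilter ℕ, (V : Filter ℕ) ≤ atTop → ∀ ε : ℝ, 0 < ε → ∃ (K : ℕ) (t δ : ℝ), 0 < t ∧ 0 < δ ∧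
  ∀ Hm : ℕ, ∃ J₀ : ℕ, ∀ J ≥ J₀, ∀ W : Finset (ℕ → ℂ), (∀ w ∈ W, ∀ n, ‖w n‖ ≤ 1) → (W.card : ℝ) ≤ Real.exp (δ * J) →
    (∀ w ∈ W, ∃ H, 1 ≤ H ∧ H ≤ Hm ∧ (∑ j ∈ range J, psi H K w j) / (J : ℝ) ≤ t) → Lam V (maxw W J) ≤ ε

end Pool.Agent.Lib.MP_3e612f_nt.ZE
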