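import Pool.Agent.Lib.MP_3e612f_nt.ZE.H.Defs

/-! Project ZE, part H: topological entropy zero. -/

set_option autoImplicit false

namespace Pool.Agent.Lib.MP_3e612f_nt.ZE

open Finset MeasureTheory Filter Topology

/-- If the topological entropy (Mathlib, `Dynamics.coverEntropy`) is zero then every measure has zero entropy in the sense of `ZEnt`. `U = {(x, y) | ‖g x - g y‖ < ε} ∈ 𝓤 Y` (uniform continuity); `coverEntropyEntourage S univ U ≤ coverEntropy S univ = 0 < δ`, so `coverMincard S univ U J ≤ exp (δ J)` for large `J` (`ExpGrowth.expGrowthSup`, a limsup);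
a minimal cover `s` (`coverMincard_finite_iff`) gives `C`: each `y` has `c ∈ C` with `(S^n c, S^n y) ∈ U` for `n < J` (`mem_dynEntourage`), so `∑ < ε J` for `J ≥ 1` and the bad set is empty. -/
theorem zent_of_cover {Y : Type} [MetricSpace Y] [CompactSpace Y] [MeasurableSpace Y] (S : Y → Y) (hS : Continuous S) (hE : Dynamics.coverEntropy S Set.univ = 0) (g : Y → ℂ) (hg : Continuous g) (ν : Measure Y) :
    ZEnt S g ν := by
  classical
  intro ε hε δ hδ
  have hU : {p : Y × Y | ‖g p.1 - g p.2‖ < ε} ∈ uniformity Y := by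
    have huc : UniformContinuous g := CompactSpace.uniformContinuous_of_continuous hg
    have h1 := Metric.uniformContinuous_iff.1 huc ε hε
    obtain ⟨η, hη, h2⟩ := h1
    refine Metric.mem_uniformity_dist.2 ⟨η, hη, fun x y hxy => ?_⟩
    have h3 := h2 hxy
    rw [dist_eq_norm] at h3
    exact h3
  have hSu : UniformContinuous S := CompactSpace.uniformContinuous_of_continuous hS
  have hlt : ExpGrowth.expGrowthSup (fun n : ℕ => ((Dynamics.coverMincard S Set.univ {p : Y × Y | ‖g p.1 - g p.2‖ < ε} n : ℕ∞) : ENNReal)) < ((δ : ℝ) : EReal) := by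
    have h1 := Dynamics.coverEntropyEntourage_le_coverEntropy S Set.univ hU
    rw [hE] at h1
    exact lt_of_le_of_lt h1 (by exact_mod_cast hδ)
  have hev := ExpGrowth.eventually_le_exp hlt
  obtain ⟨J₀, hJ₀⟩ := Filter.eventually_atTop.1 hev
  refine ⟨J₀ + 1, fun J hJ => ?_⟩
  have h1 := hJ₀ J (by omega)
  obtain ⟨s, hs, hcard⟩ := (Dynamics.coverMincard_finite_iff S Set.univ {p : Y × Y | ‖g p.1 - g p.2‖ < ε} J).1
    (Dynamics.coverMincard_finite_of_isCompact_uniformContinuous isCompact_univ hSu hU J)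
  refine ⟨s, ?_, ?_⟩
  · rw [← hcard] at h1
    have h2 : ((s.card : ℕ) : ENNReal) ≤ ENNReal.ofReal (Real.exp (δ * J)) := by
      have h3 : (((s.card : ℕ∞)) : ENNReal) = ((s.card : ℕ) : ENNReal) := by simp
      have h4 : EReal.exp (((δ : ℝ) : EReal) * (J : EReal)) = ENNReal.ofReal (Real.exp (δ * J)) := by
        have h5 : (((δ : ℝ) : EReal) * (J : EReal)) = ((δ * (J : ℝ) : ℝ) : EReal) := by
          rw [EReal.coe_mul]
          rfl
        rw [h5, EReal.exp_coe]
      rw [h3, h4] at h1
      exact h1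
    have h6 : ((s.card : ℕ) : ENNReal) = ENNReal.ofReal (s.card : ℝ) := by
      rw [ENNReal.ofReal_natCast]
    rw [h6] at h2
    exact (ENNReal.ofReal_le_ofReal_iff (Real.exp_pos _).le).1 h2
  · have hempty : {y : Y | ∀ c ∈ s, ε * J ≤ ∑ n ∈ range J, ‖g (S^[n] y) - g (S^[n] c)‖} = ∅ := by
      ext y
      simp only [Set.mem_ofPred_eq, Set.mem_empty_iff_false, iff_false, not_forall, not_le]
      obtain ⟨z, hz, hyz⟩ := hs (Set.mem_univ y)
      refine ⟨z, by exact_mod_cast hz, ?_⟩
      have h7 := Dynamics.mem_dynEntourage.1 hyz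
      have h8 : ∑ n ∈ range J, ‖g (S^[n] y) - g (S^[n] z)‖ < ∑ n ∈ range J, ε := by
        refine Finset.sum_lt_sum_of_nonempty ?_ ?_
        · rw [Finset.nonempty_range_iff]
          omega
        · intro n hn
          exact h7 n (Finset.mem_range.1 hn)
      rw [Finset.sum_const, Finset.card_range, nsmul_eq_mul, mul_comm] at h8
      exact h8
    rw [hempty, measure_empty]
    exact bot_le

end Pool.Agent.Lib.MP_3e612f_nt.ZE
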