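import Pool.Agent.Lib.MP_3e612f_nt.ZE.H.Sums

/-! Project ZE, part H: logarithmic empirical measures. -/

set_option autoImplicit false

namespace Pool.Agent.Lib.MP_3e612f_nt.ZE

open Finset MeasureTheory Filter Topology

section
variable {Y : Type} [MeasurableSpace Y]

/-- the average of the point masses at `p x n`, `n < h`, `x < N` with weight `1/(x+1)` -/
noncomputable def lem (N h : ℕ) (p : ℕ → ℕ → Y) : Measure Y :=
  ENNReal.ofReal (1 / (lw N * h)) • ∑ x ∈ range N, ENNReal.ofReal (1 / ((x : ℝ) + 1)) • ∑ n ∈ range h, Measure.dirac (p x n)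

open Classical in
private theorem lem_ap (N h : ℕ) (p : ℕ → ℕ → Y) (V : Set Y) (hV : MeasurableSet V) :
    lem N h p V = ENNReal.ofReal ((∑ x ∈ range N, (∑ n ∈ range h, (if p x n ∈ V then (1 : ℝ) else 0)) /
      ((x : ℝ) + 1)) / (lw N * h)) := by
  have h0 : ∀ x n, (0 : ℝ) ≤ (if p x n ∈ V then (1 : ℝ) else 0) := by
    intro x n
    split_ifs
    · exact zero_le_one
    · exact le_refl 0
  have h1 : 0 ≤ lw N * h := mul_nonneg (lw_nonneg N) (Nat.cast_nonneg h)
  have h2 : ∀ x n, Measure.dirac (p x n) V = ENNReal.ofReal (if p x n ∈ V then (1 : ℝ) else 0) := by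
    intro x n
    rw [Measure.dirac_apply' _ hV]
    by_cases h : p x n ∈ V <;> simp [Set.indicator, h]
  unfold lem
  rw [Measure.smul_apply, Measure.finsetSum_apply, smul_eq_mul]
  have h3 : ∀ x ∈ range N, (ENNReal.ofReal (1 / ((x : ℝ) + 1)) • ∑ n ∈ range h, Measure.dirac (p x n)) V =
      ENNReal.ofReal ((∑ n ∈ range h, (if p x n ∈ V then (1 : ℝ) else 0)) / ((x : ℝ) + 1)) := by
    intro x _
    rw [Measure.smul_apply, Measure.finsetSum_apply, smul_eq_mul, Finset.sum_congr rfl fun n _ => h2 x n,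
      ← ENNReal.ofReal_sum_of_nonneg fun n _ => h0 x n, ← ENNReal.ofReal_mul (by positivity)]
    rw [one_div_mul_eq_div]
  rw [Finset.sum_congr rfl h3, ← ENNReal.ofReal_sum_of_nonneg fun x _ =>
    div_nonneg (Finset.sum_nonneg fun n _ => h0 x n) (by positivity),
    ← ENNReal.ofReal_mul (one_div_nonneg.2 h1), one_div_mul_eq_div]

theorem lem_prob (N h : ℕ) (hN : 1 ≤ N) (hh : 1 ≤ h) (p : ℕ → ℕ → Y) : IsProbabilityMeasure (lem N h p) := by
  constructor
  have h0 := lw_pos hN
  have h1 : (0 : ℝ) < h := by exact_mod_cast hh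
  rw [lem_ap N h p Set.univ MeasurableSet.univ]
  have h2 : (∑ x ∈ range N, (∑ _n ∈ range h, (1 : ℝ)) / ((x : ℝ) + 1)) = lw N * h := by
    unfold lw
    rw [Finset.sum_mul]
    refine Finset.sum_congr rfl fun x _ => ?_
    rw [Finset.sum_const, card_range, nsmul_eq_mul, mul_one, one_div_mul_eq_div]
  simp only [Set.mem_univ, if_true]
  rw [h2, div_self (mul_pos h0 h1).ne', ENNReal.ofReal_one]

/-- as a probability measure -/
noncomputable def lemP (N h : ℕ) (hN : 1 ≤ N) (hh : 1 ≤ h) (p : ℕ → ℕ → Y) : ProbabilityMeasure Y := ⟨lem N h p, lem_prob N h hN hh p⟩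

/-- as `LOM.avm_integral` -/
theorem lem_integral [TopologicalSpace Y] [BorelSpace Y] [T1Space Y] (N h : ℕ) (p : ℕ → ℕ → Y) (φ : C(Y, ℝ)) :
    ∫ y, φ y ∂(lem N h p) = (∑ x ∈ range N, (∑ n ∈ range h, φ (p x n)) / ((x : ℝ) + 1)) / (lw N * h) := by
  have h1 : 0 ≤ lw N * h := mul_nonneg (lw_nonneg N) (Nat.cast_nonneg h)
  have hi : ∀ x n, Integrable (fun y => φ y) (Measure.dirac (p x n)) := fun x n =>
    integrable_dirac (by simp)
  unfold lem
  rw [integral_smul_measure, integral_finsetSum_measure]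
  · rw [ENNReal.toReal_ofReal (one_div_nonneg.2 h1), smul_eq_mul, one_div_mul_eq_div]
    congr 1
    refine Finset.sum_congr rfl fun x _ => ?_
    rw [integral_smul_measure, integral_finsetSum_measure fun n _ => hi x n,
      ENNReal.toReal_ofReal (by positivity), smul_eq_mul, one_div_mul_eq_div]
    simp only [integral_dirac]
  · intro x _
    refine Integrable.smul_measure ?_ ENNReal.ofReal_ne_top
    exact integrable_finsetSum_measure.2 fun n _ => hi x n

open Classical in
/-- as `LOM.avm_apply` -/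
theorem lem_apply (N h : ℕ) (p : ℕ → ℕ → Y) (V : Set Y) (hV : MeasurableSet V) :
    (lem N h p V).toReal = (∑ x ∈ range N, (∑ n ∈ range h, (if p x n ∈ V then (1 : ℝ) else 0)) / ((x : ℝ) + 1)) / (lw N * h) := by
  rw [lem_ap N h p V hV, ENNReal.toReal_ofReal]
  refine div_nonneg (Finset.sum_nonneg fun x _ => div_nonneg (Finset.sum_nonneg fun n _ => ?_) (by positivity))
    (mul_nonneg (lw_nonneg N) (Nat.cast_nonneg h))
  split_ifs
  · exact zero_le_one
  · exact le_refl 0

end

/-- From a bad sequence to a limit measure: by compactness a subsequence `ms` of the measures `lemP (N k) (h k) ..` converges to some `ν`; `ν` is a limit measure because `lw N / log N → 1` (`lw_log`). (`CompactSpace.tendsto_subseq`, `lem_integral`.) -/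
theorem exists_llim {Y : Type} [MetricSpace Y] [CompactSpace Y] [MeasurableSpace Y] [BorelSpace Y] (S : Y → Y) (F : Set (ℕ → Y))
    (N h : ℕ → ℕ) (hN : ∀ k, 1 ≤ N k) (hh1 : ∀ k, 1 ≤ h k) (y : ℕ → ℕ → Y) (hy : ∀ k, y k ∈ F) (hh : Tendsto h atTop atTop)
    (hNh : Tendsto (fun k => Real.log (N k) / (h k : ℝ)) atTop atTop) :
    ∃ (ν : ProbabilityMeasure Y) (ms : ℕ → ℕ), StrictMono ms ∧ LLim S F (ν : Measure Y) ∧
      Tendsto (fun k => lemP (N (ms k)) (h (ms k)) (hN _) (hh1 _) (fun x n => S^[n] (y (ms k) x))) atTop (𝓝 ν) := by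
  obtain ⟨ν, ms, hms, hconv⟩ := CompactSpace.tendsto_subseq (fun k : ℕ =>
    lemP (N k) (h k) (hN k) (hh1 k) (fun x n => S^[n] (y k x)))
  refine ⟨ν, ms, hms, ?_, hconv⟩
  refine ⟨fun k => N (ms k), fun k => h (ms k), fun k => y (ms k), fun k => hy _,
    hh.comp hms.tendsto_atTop, hNh.comp hms.tendsto_atTop, fun φ => ?_⟩
  have h1 := (ProbabilityMeasure.tendsto_iff_forall_integral_tendsto.1 hconv)
    (BoundedContinuousFunction.mkOfCompact φ)
  -- the logarithm is large
  have hlog : Tendsto (fun k => Real.log (N k)) atTop atTop := by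
    refine tendsto_atTop_mono' atTop ?_ hNh
    filter_upwards with k
    have h3 : (1 : ℝ) ≤ h k := by exact_mod_cast hh1 k
    exact div_le_self (Real.log_natCast_nonneg _) h3
  have hlog' : Tendsto (fun k => Real.log (N (ms k))) atTop atTop := hlog.comp hms.tendsto_atTop
  have hratio : Tendsto (fun k => lw (N (ms k)) / Real.log (N (ms k))) atTop (𝓝 1) := by
    have h4 : Tendsto (fun k => 1 + 1 / Real.log (N (ms k))) atTop (𝓝 1) := by
      have h5 := (tendsto_const_nhds (x := (1 : ℝ))).div_atTop hlog'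
      have h6 := h5.const_add 1
      rw [add_zero] at h6
      exact h6
    refine tendsto_of_tendsto_of_tendsto_of_le_of_le' tendsto_const_nhds h4 ?_ ?_
    · filter_upwards [hlog'.eventually_gt_atTop 0] with k hk
      rw [le_div_iff₀ hk, one_mul]
      exact (lw_log _ (hN _)).1
    · filter_upwards [hlog'.eventually_gt_atTop 0] with k hk
      rw [div_le_iff₀ hk, add_mul, one_mul, one_div_mul_cancel hk.ne']
      have := (lw_log _ (hN (ms k))).2
      linarith
  have h2 := h1.mul hratio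
  rw [mul_one] at h2
  refine h2.congr fun k => ?_
  have h3 := lem_integral (N (ms k)) (h (ms k)) (fun x n => S^[n] (y (ms k) x)) φ
  have hw := (lw_pos (hN (ms k))).ne'
  have h4 : ∫ x, (BoundedContinuousFunction.mkOfCompact φ : Y → ℝ) x
      ∂(lemP (N (ms k)) (h (ms k)) (hN _) (hh1 _) (fun x n => S^[n] (y (ms k) x)) : Measure Y) =
      (∑ x ∈ range (N (ms k)), (∑ n ∈ range (h (ms k)), φ (S^[n] (y (ms k) x))) / ((x : ℝ) + 1)) /
        (lw (N (ms k)) * h (ms k)) := h3
  have h5 : ∀ A w L H : ℝ, w ≠ 0 → A / (w * H) * (w / L) = A / (L * H) := by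
    intro A w L H hw
    rw [div_mul_div_comm, show w * H * L = L * H * w by ring]
    exact mul_div_mul_right _ _ hw
  exact (congrArg (fun t => t * (lw (N (ms k)) / Real.log (N (ms k)))) h4).trans (h5 _ _ _ _ hw)

end Pool.Agent.Lib.MP_3e612f_nt.ZE
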