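import Pool.Agent.Lib.MP_3e612f_nt.ZE.H.VJ

/-! Project ZE, part H: a good set and a small set of words. -/

set_option autoImplicit false

namespace Pool.Agent.Lib.MP_3e612f_nt.ZE

open Finset MeasureTheory Filter Topology
open Pool.Agent.Lib.MP_3e612f_nt.NF (GoodR)

/-- For each `c ∈ C` choose, if there is one, a point `d_c ∈ V` with `∑ ‖g (S^n d_c) - g (S^n c)‖ < e`; `D` = the set of these points. -/
theorem net_exists {Y : Type} (S : Y → Y) (g : Y → ℂ) (J : ℕ) (e : ℝ) (V : Set Y) (C : Finset Y) :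
    ∃ D : Finset Y, D.card ≤ C.card ∧ (∀ d ∈ D, d ∈ V) ∧
      ∀ y ∈ V, (∃ c ∈ C, ∑ n ∈ range J, ‖g (S^[n] y) - g (S^[n] c)‖ < e) → ∃ d ∈ D, ∑ n ∈ range J, ‖g (S^[n] y) - g (S^[n] d)‖ ≤ 2 * e := by
  classical
  have h1 : ∀ c : Y, ∃ d : Y, (∃ d ∈ V, ∑ n ∈ range J, ‖g (S^[n] d) - g (S^[n] c)‖ < e) →
      d ∈ V ∧ ∑ n ∈ range J, ‖g (S^[n] d) - g (S^[n] c)‖ < e := by
    intro c
    by_cases h : ∃ d ∈ V, ∑ n ∈ range J, ‖g (S^[n] d) - g (S^[n] c)‖ < e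
    · obtain ⟨d, hd, hd'⟩ := h
      exact ⟨d, fun _ => ⟨hd, hd'⟩⟩
    · exact ⟨c, fun h' => absurd h' h⟩
  choose q hq using h1
  refine ⟨(C.filter fun c => ∃ d ∈ V, ∑ n ∈ range J, ‖g (S^[n] d) - g (S^[n] c)‖ < e).image q,
    card_image_le.trans (card_filter_le _ _), ?_, ?_⟩
  · intro d hd
    obtain ⟨c, hc, rfl⟩ := mem_image.1 hd
    exact (hq c (mem_filter.1 hc).2).1
  · rintro y hy ⟨c, hc, hyc⟩
    have h2 : ∃ d ∈ V, ∑ n ∈ range J, ‖g (S^[n] d) - g (S^[n] c)‖ < e := ⟨y, hy, hyc⟩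
    refine ⟨q c, mem_image_of_mem q (mem_filter.2 ⟨hc, h2⟩), ?_⟩
    have h3 := (hq c h2).2
    have h4 : ∑ n ∈ range J, ‖g (S^[n] y) - g (S^[n] (q c))‖ ≤
        ∑ n ∈ range J, ‖g (S^[n] y) - g (S^[n] c)‖ +
          ∑ n ∈ range J, ‖g (S^[n] (q c)) - g (S^[n] c)‖ := by
      rw [← sum_add_distrib]
      refine sum_le_sum fun n _ => ?_
      have e1 : g (S^[n] y) - g (S^[n] (q c)) =
          (g (S^[n] y) - g (S^[n] c)) - (g (S^[n] (q c)) - g (S^[n] c)) := by ring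
      rw [e1]
      exact norm_sub_le _ _
    linarith

/-- The model at one level: `ModU S g K ν (t * e)` with `t > 0`, `e > 0`, and zero entropy: `V = VJ T S f g HH K J t` has measure at least `1 - e` (`VJ_meas`) and is open, `G = V ∩ {y | ∃ c ∈ C, ∑ ‖g (S^n y) - g (S^n c)‖ < e J}` (open, measure at least `1 - 2 e`, `C` from `ZEnt` with `e`, `δ`), `D` from `net_exists` (with `e J`), for each `d ∈ D` a partner
`ξ_d` (as `d ∈ V`) and `w_d = wd T S f g (ξ_d, d)` (`‖w_d n‖ ≤ 1/2 + 1/2`); `W = D.image`. For `y ∈ G` with `d` close to `y`: `g (S^n y) - f (T^n ξ_d) - w_d n = g (S^n y) - g (S^n d)`. -/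
theorem good_set {Y : Type} [MetricSpace Y] [CompactSpace Y] [MeasurableSpace Y] [BorelSpace Y] (S : Y → Y) (hS : Continuous S) (g : Y → ℂ) (hg : Continuous g) (hg1 : ∀ y, ‖g y‖ ≤ 1 / 2)
    (ν : Measure Y) [IsProbabilityMeasure ν] (K : ℕ) (t e δ : ℝ) (ht : 0 < t) (he : 0 < e) (hδ : 0 < δ) (hM : ModU S g K ν (t * e)) (hZ : ZEnt S g ν) :
    ∃ (E : Type) (_ : Nonempty E) (T : E → E) (f : E → ℂ) (Hm : ℕ), GoodR T f ∧ (∀ x, ‖f x‖ ≤ 1 / 2) ∧ ∃ J₀ : ℕ, ∀ J ≥ J₀,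
      ∃ (G : Set Y) (W : Finset (ℕ → ℂ)), IsOpen G ∧ 1 - 2 * e ≤ (ν G).toReal ∧ (∀ w ∈ W, ∀ n, ‖w n‖ ≤ 1) ∧ (W.card : ℝ) ≤ Real.exp (δ * J) ∧
        (∀ w ∈ W, ∃ H, 1 ≤ H ∧ H ≤ Hm ∧ (∑ j ∈ range J, psi H K w j) / (J : ℝ) ≤ t) ∧
        ∀ y ∈ G, ∃ w ∈ W, ∃ ξ : E, ∑ n ∈ range J, ‖g (S^[n] y) - f (T^[n] ξ) - w n‖ ≤ 2 * e * J := by
  classical
  obtain ⟨E, mE, T, f, HH, Hm, lam, hf, hf1, hHm, hHT, hHb, hG, hp, hinv, hmarg, hint⟩ := hM
  haveI := hp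
  have hne : Nonempty E := by
    obtain ⟨p⟩ := nonempty_of_isProbabilityMeasure lam
    exact ⟨p.1⟩
  obtain ⟨J₁, hJ₁⟩ := hZ e he δ hδ
  refine ⟨E, hne, T, f, Hm, hG, hf1, max J₁ 1, fun J hJ => ?_⟩
  have hJ1 : 1 ≤ J := (le_max_right _ _).trans hJ
  have hJ0 : (0 : ℝ) < J := by exact_mod_cast hJ1
  obtain ⟨C, hC, hCν⟩ := hJ₁ J ((le_max_left _ _).trans hJ)
  obtain ⟨V, hV⟩ : ∃ V : Set Y, V = VJ T S f g HH K J t := ⟨_, rfl⟩
  have hVo : IsOpen V := by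
    rw [hV]
    exact VJ_open T S hS f g hg HH K J t
  have hVm : 1 - e ≤ (ν V).toReal := by
    have h := VJ_meas T S hS f hf hf1 g hg hg1 HH hHm hHT lam hinv K t e ht hint J hJ1
    rw [hmarg] at h
    rw [hV]
    exact h
  obtain ⟨B, hB⟩ : ∃ B : Set Y, B = {y | ∃ c ∈ C, ∑ n ∈ range J, ‖g (S^[n] y) - g (S^[n] c)‖ < e * J} :=
    ⟨_, rfl⟩
  have hBo : IsOpen B := by
    have h1 : B = ⋃ c ∈ C, {y | ∑ n ∈ range J, ‖g (S^[n] y) - g (S^[n] c)‖ < e * J} := by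
      rw [hB]
      ext y
      simp only [Set.mem_setOf_eq, Set.mem_iUnion, exists_prop]
    rw [h1]
    refine isOpen_biUnion fun c _ => isOpen_lt ?_ continuous_const
    refine continuous_finsetSum _ fun n _ => ?_
    exact ((hg.comp (hS.iterate n)).sub continuous_const).norm
  have hBm : (ν Bᶜ).toReal ≤ e := by
    have h1 : Bᶜ = {y | ∀ c ∈ C, e * J ≤ ∑ n ∈ range J, ‖g (S^[n] y) - g (S^[n] c)‖} := by
      rw [hB]
      ext y
      simp only [Set.mem_compl_iff, Set.mem_setOf_eq, not_exists, not_and, not_lt]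
    rw [h1]
    exact ENNReal.toReal_le_of_le_ofReal he.le hCν
  have hVc : (ν Vᶜ).toReal ≤ e := by
    have h1 : (ν Vᶜ).toReal = 1 - (ν V).toReal := by
      rw [prob_compl_eq_one_sub hVo.measurableSet, ENNReal.toReal_sub_of_le prob_le_one
        ENNReal.one_ne_top, ENNReal.toReal_one]
    rw [h1]
    linarith
  have hGm : 1 - 2 * e ≤ (ν (V ∩ B)).toReal := by
    have h1 : (ν (V ∩ B)ᶜ).toReal = 1 - (ν (V ∩ B)).toReal := by
      rw [prob_compl_eq_one_sub (hVo.inter hBo).measurableSet,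
        ENNReal.toReal_sub_of_le prob_le_one ENNReal.one_ne_top, ENNReal.toReal_one]
    have h2 : (ν (V ∩ B)ᶜ).toReal ≤ (ν Vᶜ).toReal + (ν Bᶜ).toReal := by
      rw [Set.compl_inter, ← ENNReal.toReal_add (measure_ne_top ν _) (measure_ne_top ν _)]
      exact ENNReal.toReal_mono (ENNReal.add_ne_top.2 ⟨measure_ne_top ν _, measure_ne_top ν _⟩)
        (measure_union_le _ _)
    linarith
  obtain ⟨D, hD1, hD2, hD3⟩ := net_exists S g J (e * J) V C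
  have hξ : ∀ d : Y, ∃ ξ : E, d ∈ V → ∑ j ∈ range J, psi (HH ξ) K (wd T S f g (ξ, d)) j < t * J := by
    intro d
    by_cases hd : d ∈ V
    · rw [hV] at hd
      obtain ⟨ξ, hξ⟩ := hd
      exact ⟨ξ, fun _ => hξ⟩
    · obtain ⟨ξ⟩ := hne
      exact ⟨ξ, fun h => absurd h hd⟩
  choose q hq using hξ
  refine ⟨V ∩ B, D.image fun d => wd T S f g (q d, d), hVo.inter hBo, hGm, ?_, ?_, ?_, ?_⟩
  · intro w hw n
    obtain ⟨d, -, rfl⟩ := mem_image.1 hw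
    unfold wd
    calc ‖g (S^[n] d) - f (T^[n] (q d))‖ ≤ ‖g (S^[n] d)‖ + ‖f (T^[n] (q d))‖ := norm_sub_le _ _
      _ ≤ 1 / 2 + 1 / 2 := add_le_add (hg1 _) (hf1 _)
      _ = 1 := by norm_num
  · have h1 : (((D.image fun d => wd T S f g (q d, d)).card : ℕ) : ℝ) ≤ (C.card : ℝ) := by
      exact_mod_cast card_image_le.trans hD1
    exact h1.trans hC
  · intro w hw
    obtain ⟨d, hd, rfl⟩ := mem_image.1 hw
    refine ⟨HH (q d), (hHb _).1, (hHb _).2, ?_⟩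
    rw [div_le_iff₀ hJ0]
    exact (hq d (hD2 d hd)).le
  · rintro y ⟨hyV, hyB⟩
    rw [hB] at hyB
    obtain ⟨d, hd, hyd⟩ := hD3 y hyV hyB
    refine ⟨_, mem_image_of_mem _ hd, q d, ?_⟩
    have h1 : ∀ n ∈ range J, ‖g (S^[n] y) - f (T^[n] (q d)) - wd T S f g (q d, d) n‖ =
        ‖g (S^[n] y) - g (S^[n] d)‖ := by
      intro n _
      unfold wd
      congr 1
      ring
    rw [sum_congr rfl h1]
    linarith

end Pool.Agent.Lib.MP_3e612f_nt.ZE
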