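import Pool.Agent.Lib.MP_3e612f_nt.ZE.H.Sums

/-! Project ZE, part H: the bound of the long windows by the short ones. -/

set_option autoImplicit false

namespace Pool.Agent.Lib.MP_3e612f_nt.ZE

open Finset MeasureTheory Filter Topology
open Pool.Agent.Lib.MP_3e612f_nt.PI (mc)

/-- `Finset.fold_max_le`, `Finset.le_fold_max` -/
theorem maxw_mem (W : Finset (ℕ → ℂ)) (hW : ∀ w ∈ W, ∀ n, ‖w n‖ ≤ 1) (J n : ℕ) :
    0 ≤ maxw W J n ∧ maxw W J n ≤ 1 ∧ ∀ w ∈ W, ‖(∑ j ∈ range J, mc (n + j) * w j) / (J : ℂ)‖ ≤ maxw W J n := by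
  have h0 : ∀ w ∈ W, ‖(∑ j ∈ range J, mc (n + j) * w j) / (J : ℂ)‖ ≤ 1 := by
    intro w hw
    rw [norm_div, Complex.norm_natCast]
    refine div_le_of_le_mul₀ (Nat.cast_nonneg _) zero_le_one ?_
    rw [one_mul]
    refine (norm_sum_le _ _).trans ?_
    calc ∑ j ∈ range J, ‖mc (n + j) * w j‖ ≤ ∑ _j ∈ range J, (1 : ℝ) := by
          refine Finset.sum_le_sum fun j _ => ?_
          rw [norm_mul]
          exact mul_le_one₀ (LOM.mc_le _) (norm_nonneg _) (hW w hw j)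
      _ = J := by simp
  refine ⟨?_, ?_, ?_⟩
  · exact (Finset.le_fold_max _).2 (Or.inl le_rfl)
  · exact (Finset.fold_max_le _).2 ⟨zero_le_one, h0⟩
  · intro w hw
    exact (Finset.le_fold_max _).2 (Or.inr ⟨w, hw, le_rfl⟩)

open Classical in
/-- One place: for `S^n y ∈ G` write `g (S^(n+i) y) = f (T^i ξ) + w i + error`; otherwise the sum is at most `J/2` (choose any `z`). -/
theorem key_point {E Y : Type} [Nonempty E] (T : E → E) (S : Y → Y) (f : E → ℂ) (g : Y → ℂ) (hg : ∀ y, ‖g y‖ ≤ 1 / 2) (J : ℕ) (hJ : 1 ≤ J) (e : ℝ) (he : 0 < e) (G : Set Y) (W : Finset (ℕ → ℂ)) (hW : ∀ w ∈ W, ∀ n, ‖w n‖ ≤ 1)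
    (hGW : ∀ y ∈ G, ∃ w ∈ W, ∃ ξ : E, ∑ n ∈ range J, ‖g (S^[n] y) - f (T^[n] ξ) - w n‖ ≤ 2 * e * J) (y : Y) :
    ∃ z : E, ∀ m : ℕ, ‖∑ i ∈ range J, mc (m + i) * g (S^[i] y)‖ ≤
      ‖∑ i ∈ range J, mc (m + i) * f (T^[i] z)‖ + J * maxw W J m + 2 * e * J + J * (if y ∈ G then 0 else 1) := by
  have hJ0 : (0 : ℝ) ≤ (J : ℝ) := Nat.cast_nonneg _
  by_cases hy : y ∈ G
  · obtain ⟨w, hw, ξ, hξ⟩ := hGW y hy
    refine ⟨ξ, fun m => ?_⟩
    rw [if_pos hy, mul_zero, add_zero]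
    have ee : ∑ i ∈ range J, mc (m + i) * g (S^[i] y) =
        ∑ i ∈ range J, mc (m + i) * f (T^[i] ξ) + ∑ i ∈ range J, mc (m + i) * w i +
          ∑ i ∈ range J, mc (m + i) * (g (S^[i] y) - f (T^[i] ξ) - w i) := by
      rw [← Finset.sum_add_distrib, ← Finset.sum_add_distrib]
      exact Finset.sum_congr rfl fun i _ => by ring
    have h2 : ‖∑ i ∈ range J, mc (m + i) * w i‖ ≤ J * maxw W J m := by
      have h3 := (maxw_mem W hW J m).2.2 w hw
      rw [norm_div, Complex.norm_natCast, div_le_iff₀ (by exact_mod_cast hJ)] at h3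
      linarith [mul_comm (maxw W J m) (J : ℝ)]
    have h4 : ‖∑ i ∈ range J, mc (m + i) * (g (S^[i] y) - f (T^[i] ξ) - w i)‖ ≤ 2 * e * J := by
      refine (norm_sum_le _ _).trans (le_trans (Finset.sum_le_sum fun i _ => ?_) hξ)
      rw [norm_mul]
      exact mul_le_of_le_one_left (norm_nonneg _) (LOM.mc_le _)
    rw [ee]
    refine (norm_add_le _ _).trans (add_le_add ((norm_add_le _ _).trans ?_) h4)
    exact add_le_add le_rfl h2
  · obtain ⟨z⟩ := (inferInstance : Nonempty E)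
    refine ⟨z, fun m => ?_⟩
    rw [if_neg hy, mul_one]
    have h1 : ‖∑ i ∈ range J, mc (m + i) * g (S^[i] y)‖ ≤ J * (1 / 2) := by
      refine (norm_sum_le _ _).trans ?_
      calc ∑ i ∈ range J, ‖mc (m + i) * g (S^[i] y)‖ ≤ ∑ _i ∈ range J, (1 / 2 : ℝ) := by
            refine Finset.sum_le_sum fun i _ => ?_
            rw [norm_mul]
            exact (mul_le_of_le_one_left (norm_nonneg _) (LOM.mc_le _)).trans (hg _)
        _ = J * (1 / 2) := by rw [Finset.sum_const, card_range, nsmul_eq_mul]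
    have h2 := norm_nonneg (∑ i ∈ range J, mc (m + i) * f (T^[i] z))
    have h3 : 0 ≤ (J : ℝ) * maxw W J m := mul_nonneg hJ0 (maxw_mem W hW J m).1
    have h4 : 0 ≤ 2 * e * (J : ℝ) := by positivity
    linarith

open Classical in
/-- `win_log` (with `G = 1/2`, `a x n = mc (x + n) * g (S^[n] (y x))`), `key_point` for the points `S^n (y x)` (`m = x + n`), `hD` for the `f`-part and `log_shift` for `maxw W J`; divide by `J`; `∑_{n<h} n ≤ h²`. -/
theorem key_bound {E Y : Type} [Nonempty E] (T : E → E) (S : Y → Y) (f : E → ℂ) (g : Y → ℂ) (hg : ∀ y, ‖g y‖ ≤ 1 / 2) (J : ℕ) (hJ : 1 ≤ J) (e : ℝ) (he : 0 < e) (G : Set Y) (W : Finset (ℕ → ℂ)) (hW : ∀ w ∈ W, ∀ n, ‖w n‖ ≤ 1)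
    (hGW : ∀ y ∈ G, ∃ w ∈ W, ∃ ξ : E, ∑ n ∈ range J, ‖g (S^[n] y) - f (T^[n] ξ) - w n‖ ≤ 2 * e * J) (D : ℝ)
    (hD : ∀ (N n : ℕ) (z : ℕ → E), ∑ x ∈ range N, ‖∑ i ∈ range J, mc (x + (n + i)) * f (T^[i] (z x))‖ / ((x : ℝ) + 1) ≤ e * J * (lw N + 1) + D + n * (J * (1 / 2)))
    (N h : ℕ) (y : ℕ → Y) :
    ∑ x ∈ range N, ‖∑ n ∈ range h, mc (x + n) * g (S^[n] (y x))‖ / ((x : ℝ) + 1) ≤
      h * (e * (lw N + 1) + D / J + h) + h * (∑ x ∈ range N, maxw W J x / ((x : ℝ) + 1) + h) + 2 * e * h * lw N +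
        (∑ x ∈ range N, (∑ n ∈ range h, (if S^[n] (y x) ∈ G then (0 : ℝ) else 1)) / ((x : ℝ) + 1)) + J * lw N := by
  have hJp : (0 : ℝ) < (J : ℝ) := by exact_mod_cast hJ
  have hx : ∀ x : ℕ, (0 : ℝ) < (x : ℝ) + 1 := fun x => by positivity
  have hkp := key_point T S f g hg J hJ e he G W hW hGW
  choose z hz using hkp
  have hwl := win_log (fun x n => mc (x + n) * g (S^[n] (y x))) (1 / 2)
    (fun x n => by
      rw [norm_mul]
      exact (mul_le_of_le_one_left (norm_nonneg _) (LOM.mc_le _)).trans (hg _)) N h J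
  -- one window
  have h1 : ∀ n ∈ range h, ∑ x ∈ range N, ‖∑ i ∈ range J, mc (x + (n + i)) * g (S^[n + i] (y x))‖ / ((x : ℝ) + 1) ≤
      (e * J * (lw N + 1) + D + n * (J * (1 / 2))) + J * (∑ x ∈ range N, maxw W J x / ((x : ℝ) + 1) + n) + 2 * e * J * lw N +
        J * ∑ x ∈ range N, (if S^[n] (y x) ∈ G then (0 : ℝ) else 1) / ((x : ℝ) + 1) := by
    intro n _
    have h2 : ∀ x ∈ range N, ‖∑ i ∈ range J, mc (x + (n + i)) * g (S^[n + i] (y x))‖ / ((x : ℝ) + 1) ≤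
        ‖∑ i ∈ range J, mc (x + (n + i)) * f (T^[i] (z (S^[n] (y x))))‖ / ((x : ℝ) + 1) +
          J * (maxw W J (x + n) / ((x : ℝ) + 1)) + 2 * e * J * (1 / ((x : ℝ) + 1)) +
            J * ((if S^[n] (y x) ∈ G then (0 : ℝ) else 1) / ((x : ℝ) + 1)) := by
      intro x _
      have h3 := hz (S^[n] (y x)) (x + n)
      have e1 : ∑ i ∈ range J, mc (x + n + i) * g (S^[i] (S^[n] (y x))) = ∑ i ∈ range J, mc (x + (n + i)) * g (S^[n + i] (y x)) := by
        refine Finset.sum_congr rfl fun i _ => ?_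
        rw [← Function.iterate_add_apply, add_assoc, add_comm i n]
      have e2 : ∑ i ∈ range J, mc (x + n + i) * f (T^[i] (z (S^[n] (y x)))) = ∑ i ∈ range J, mc (x + (n + i)) * f (T^[i] (z (S^[n] (y x)))) := by
        refine Finset.sum_congr rfl fun i _ => ?_
        rw [add_assoc]
      rw [e1, e2] at h3
      calc ‖∑ i ∈ range J, mc (x + (n + i)) * g (S^[n + i] (y x))‖ / ((x : ℝ) + 1)
          ≤ (‖∑ i ∈ range J, mc (x + (n + i)) * f (T^[i] (z (S^[n] (y x))))‖ + J * maxw W J (x + n) + 2 * e * J +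
              J * (if S^[n] (y x) ∈ G then 0 else 1)) / ((x : ℝ) + 1) := div_le_div_of_nonneg_right h3 (hx x).le
        _ = _ := by ring
    refine (Finset.sum_le_sum h2).trans ?_
    rw [Finset.sum_add_distrib, Finset.sum_add_distrib, Finset.sum_add_distrib, ← Finset.mul_sum, ← Finset.mul_sum, ← Finset.mul_sum]
    have h4 := hD N n (fun x => z (S^[n] (y x)))
    have h5 := log_shift (maxw W J) 1 (fun m => (maxw_mem W hW J m).1) (fun m => (maxw_mem W hW J m).2.1) N n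
    rw [mul_one] at h5
    have h6 := mul_le_mul_of_nonneg_left h5 hJp.le
    have h7 : ∑ x ∈ range N, 1 / ((x : ℝ) + 1) = lw N := rfl
    rw [h7]
    linarith
  have h8 := Finset.sum_le_sum h1
  have hsum : ∑ n ∈ range h, (n : ℝ) ≤ (h : ℝ) * h := by
    calc ∑ n ∈ range h, (n : ℝ) ≤ ∑ _n ∈ range h, (h : ℝ) :=
          Finset.sum_le_sum fun n hn => by exact_mod_cast (Finset.mem_range.1 hn).le
      _ = (h : ℝ) * h := by rw [Finset.sum_const, card_range, nsmul_eq_mul]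
  have hsn : 0 ≤ ∑ n ∈ range h, (n : ℝ) := Finset.sum_nonneg fun n _ => Nat.cast_nonneg n
  have e3 : ∑ n ∈ range h, ((e * J * (lw N + 1) + D + n * (J * (1 / 2))) + J * (∑ x ∈ range N, maxw W J x / ((x : ℝ) + 1) + n) + 2 * e * J * lw N +
        J * ∑ x ∈ range N, (if S^[n] (y x) ∈ G then (0 : ℝ) else 1) / ((x : ℝ) + 1)) =
      h * (e * J * (lw N + 1) + D) + (∑ n ∈ range h, (n : ℝ)) * (J * (1 / 2)) + J * (h * (∑ x ∈ range N, maxw W J x / ((x : ℝ) + 1)) + ∑ n ∈ range h, (n : ℝ)) +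
        h * (2 * e * J * lw N) + J * ∑ n ∈ range h, ∑ x ∈ range N, (if S^[n] (y x) ∈ G then (0 : ℝ) else 1) / ((x : ℝ) + 1) := by
    simp only [Finset.sum_add_distrib, ← Finset.mul_sum, ← Finset.sum_mul, Finset.sum_const, card_range, nsmul_eq_mul]
    ring
  have e4 : ∑ x ∈ range N, (∑ n ∈ range h, (if S^[n] (y x) ∈ G then (0 : ℝ) else 1)) / ((x : ℝ) + 1) =
      ∑ n ∈ range h, ∑ x ∈ range N, (if S^[n] (y x) ∈ G then (0 : ℝ) else 1) / ((x : ℝ) + 1) := by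
    rw [Finset.sum_comm]
    exact Finset.sum_congr rfl fun x _ => Finset.sum_div _ _ _
  rw [e3] at h8
  rw [e4]
  have h9 := hwl.trans (add_le_add h8 le_rfl)
  have h10 : (J : ℝ) * (∑ n ∈ range h, (n : ℝ)) ≤ J * (h * h) := mul_le_mul_of_nonneg_left hsum hJp.le
  have h11 : 0 ≤ (J : ℝ) * (∑ n ∈ range h, (n : ℝ)) := mul_nonneg hJp.le hsn
  refine le_of_mul_le_mul_left ?_ hJp
  refine h9.trans ?_
  have e5 : (J : ℝ) * (h * (e * (lw N + 1) + D / J + h) + h * (∑ x ∈ range N, maxw W J x / ((x : ℝ) + 1) + h) + 2 * e * h * lw N +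
        ∑ n ∈ range h, ∑ x ∈ range N, (if S^[n] (y x) ∈ G then (0 : ℝ) else 1) / ((x : ℝ) + 1) + J * lw N) =
      h * (e * J * (lw N + 1) + D) + J * (h * h) + J * (h * (∑ x ∈ range N, maxw W J x / ((x : ℝ) + 1)) + h * h) +
        h * (2 * e * J * lw N) + J * ∑ n ∈ range h, ∑ x ∈ range N, (if S^[n] (y x) ∈ G then (0 : ℝ) else 1) / ((x : ℝ) + 1) + J * J * lw N := by
    field_simp
  rw [e5]
  nlinarith [h10, h11]

end Pool.Agent.Lib.MP_3e612f_nt.ZE
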