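import Pool.Agent.Lib.MP_3e612f_nt.ZE.H.Emp
import Pool.Agent.Lib.MP_3e612f_nt.ZE.H.Good
import Pool.Agent.Lib.MP_3e612f_nt.ZE.H.Key

/-! Project ZE, part H: the windows along a sequence of measures which converges to a modelled measure of zero entropy. -/

set_option autoImplicit false

namespace Pool.Agent.Lib.MP_3e612f_nt.ZE

open Finset MeasureTheory Filter Topology
open Pool.Agent.Lib.MP_3e612f_nt.PI (mc)
open Pool.Agent.Lib.MP_3e612f_nt.NF (GoodR)

/-- The ultrafilter of the sequence `N`: `V = (hyperfilter ℕ).map N` is below `atTop`, and `lav (N k) F` is eventually (along `hyperfilter ℕ`) less than `Lam V F + e` (`lam_tendsto`). -/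
theorem exists_ultra (N : ℕ → ℕ) (hN : Tendsto N atTop atTop) : ∃ V : Ultrafilter ℕ, (V : Filter ℕ) ≤ atTop ∧
    ∀ (F : ℕ → ℝ), (∀ n, |F n| ≤ 1) → ∀ e : ℝ, 0 < e → ∀ᶠ k in (hyperfilter ℕ : Filter ℕ), lav (N k) F < Lam V F + e := by
  refine ⟨(hyperfilter ℕ).map N, ?_, fun F hF e he => ?_⟩
  · rw [Ultrafilter.coe_map]
    exact hN.mono_left Nat.hyperfilter_le_atTop
  · have h := lam_tendsto ((hyperfilter ℕ).map N) F 1 hF
    have h1 := h.eventually_lt_const (show Lam ((hyperfilter ℕ).map N) F <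
      Lam ((hyperfilter ℕ).map N) F + e by linarith)
    rw [Ultrafilter.coe_map, Filter.eventually_map] at h1
    exact h1

open Classical in
/-- Portmanteau for the open set `G`: eventually the measure of `G` is more than `(ν G) - e`; `lem_apply` rewrites it as a sum, and `∑ (1 - 1_G) = lw N h - ∑ 1_G`. -/
theorem emp_open {Y : Type} [MetricSpace Y] [CompactSpace Y] [MeasurableSpace Y] [BorelSpace Y] (S : Y → Y) (ν : ProbabilityMeasure Y)
    (N h : ℕ → ℕ) (hN1 : ∀ k, 1 ≤ N k) (hh1 : ∀ k, 1 ≤ h k) (y : ℕ → ℕ → Y)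
    (hconv : Tendsto (fun k => lemP (N k) (h k) (hN1 k) (hh1 k) (fun x n => S^[n] (y k x))) atTop (𝓝 ν)) (G : Set Y) (hG : IsOpen G) (a e : ℝ) (he : 0 < e) (ha : 1 - a ≤ ((ν : Measure Y) G).toReal) :
    ∀ᶠ k in atTop, ∑ x ∈ range (N k), (∑ n ∈ range (h k), (if S^[n] (y k x) ∈ G then (0 : ℝ) else 1)) / ((x : ℝ) + 1) ≤ (a + e) * (lw (N k) * h k) := by
  have hport := ProbabilityMeasure.le_liminf_measure_open_of_tendsto hconv hG
  have hev : ∀ᶠ k in atTop, 1 - (a + e) ≤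
      (lem (N k) (h k) (fun x n => S^[n] (y k x)) G).toReal := by
    by_cases hae : 1 - (a + e) < 0
    · exact Eventually.of_forall fun k => hae.le.trans ENNReal.toReal_nonneg
    · rw [not_lt] at hae
      have hlt : ENNReal.ofReal (1 - (a + e)) < (ν : Measure Y) G := by
        rw [← ENNReal.ofReal_toReal (measure_ne_top (ν : Measure Y) G)]
        exact (ENNReal.ofReal_lt_ofReal_iff_of_nonneg hae).2 (by linarith)
      filter_upwards [Filter.eventually_lt_of_lt_liminf (lt_of_lt_of_le hlt hport)] with k hk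
      exact (ENNReal.ofReal_le_iff_le_toReal
        (measure_ne_top ((lemP (N k) (h k) (hN1 k) (hh1 k) (fun x n => S^[n] (y k x)) :
          ProbabilityMeasure Y) : Measure Y) G)).1 hk.le
  filter_upwards [hev] with k hk
  rw [lem_apply _ _ _ G hG.measurableSet] at hk
  have hL0 : 0 < lw (N k) := lw_pos (hN1 k)
  have hh0 : (0 : ℝ) < h k := by exact_mod_cast hh1 k
  rw [le_div_iff₀ (mul_pos hL0 hh0)] at hk
  have hsum : ∑ x ∈ range (N k), (∑ n ∈ range (h k), (if S^[n] (y k x) ∈ G then (0 : ℝ) else 1)) /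
      ((x : ℝ) + 1) = lw (N k) * h k - ∑ x ∈ range (N k),
        (∑ n ∈ range (h k), (if S^[n] (y k x) ∈ G then (1 : ℝ) else 0)) / ((x : ℝ) + 1) := by
    unfold lw
    rw [Finset.sum_mul, ← Finset.sum_sub_distrib]
    refine Finset.sum_congr rfl fun x _ => ?_
    have h1 : ∑ n ∈ range (h k), (if S^[n] (y k x) ∈ G then (0 : ℝ) else 1) =
        (h k : ℝ) - ∑ n ∈ range (h k), (if S^[n] (y k x) ∈ G then (1 : ℝ) else 0) := by
      have h2 : (h k : ℝ) = ∑ n ∈ range (h k), (1 : ℝ) := by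
        rw [Finset.sum_const, Finset.card_range, nsmul_eq_mul, mul_one]
      rw [h2, ← Finset.sum_sub_distrib]
      refine Finset.sum_congr rfl fun n _ => ?_
      split_ifs <;> norm_num
    rw [h1]
    ring
  rw [hsum]
  linarith

/-- Put `e = ε / 30` (we may assume `ε ≤ 1`). `V` from `exists_ultra` for `N` (`log N / h → ∞`, so `N → ∞`), `K, t, δ` from `hL V e`, `E, T, f, Hm` from `good_set` (`ModU S g K ν (t * e)`), then `J` large: `J ≥` the bounds of `hL` for `Hm`, of `good_set` and of `goodR_log` (with `e`), `J ≥ 1`; `G, W` from `good_set`; `D` from `goodR_log`. Along `hyperfilter ℕ` all of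
the following hold eventually (the filter is below `atTop`, `Nat.hyperfilter_le_atTop`): `lav (N k) (maxw W J) < 2 e`, the bound of `emp_open` with `a = 2 e`, `J / h k ≤ e`, `D / (J lw (N k)) ≤ e`, `h k / lw (N k) ≤ e`, `lw (N k) ≥ 1`, `lw (N k) ≤ 2 log (N k)`. Then `key_bound` gives at most `h lw(N) (2 e + e + e + 2 e + e + 2 e + 3 e + e) = 13 e h lw N ≤ ε h log N`.
A set in a hyperfilter is infinite: `∃ᶠ k in atTop`. (If the filter were replaced by `atTop` the statement on `lav` would only hold frequently.) -/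
theorem win_limit (hL : StmtL) {Y : Type} [MetricSpace Y] [CompactSpace Y] [MeasurableSpace Y] [BorelSpace Y] (S : Y → Y) (hS : Continuous S) (g : Y → ℂ) (hg : Continuous g) (hg1 : ∀ y, ‖g y‖ ≤ 1 / 2)
    (ν : ProbabilityMeasure Y) (hZ : ZEnt S g (ν : Measure Y)) (hM : ∀ (K : ℕ) (t : ℝ), 0 < t → ModU S g K (ν : Measure Y) t)
    (N h : ℕ → ℕ) (hN1 : ∀ k, 1 ≤ N k) (hh1 : ∀ k, 1 ≤ h k) (y : ℕ → ℕ → Y) (hh : Tendsto h atTop atTop) (hNh : Tendsto (fun k => Real.log (N k) / (h k : ℝ)) atTop atTop)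
    (hconv : Tendsto (fun k => lemP (N k) (h k) (hN1 k) (hh1 k) (fun x n => S^[n] (y k x))) atTop (𝓝 ν)) (ε : ℝ) (hε : 0 < ε) :
    ∃ᶠ k in atTop, ∑ x ∈ range (N k), ‖∑ n ∈ range (h k), mc (x + n) * g (S^[n] (y k x))‖ / ((x : ℝ) + 1) ≤ ε * h k * Real.log (N k) := by
  classical
  have hlogT : Tendsto (fun k => Real.log (N k)) atTop atTop := by
    refine tendsto_atTop_mono (fun k => ?_) hNh
    refine div_le_self (Real.log_nonneg (by exact_mod_cast hN1 k)) (by exact_mod_cast hh1 k)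
  have hN : Tendsto N atTop atTop := by
    rw [← tendsto_natCast_atTop_iff (R := ℝ)]
    refine tendsto_atTop_mono (fun k => ?_) hlogT
    have h0 : (0 : ℝ) < N k := by exact_mod_cast hN1 k
    have h1 := Real.log_le_sub_one_of_pos h0
    linarith
  obtain ⟨e, he, hε26⟩ : ∃ e : ℝ, 0 < e ∧ 26 * e ≤ ε := ⟨ε / 30, by positivity, by linarith⟩
  obtain ⟨V, hV, hlav⟩ := exists_ultra N hN
  obtain ⟨K, t, δ, ht, hδ, hLK⟩ := hL V hV e he
  obtain ⟨E, hE, T, f, Hm, hGR, hf, J₀, hJ₀⟩ := good_set S hS g hg hg1 (ν : Measure Y) K t e δ ht he hδ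
    (hM K (t * e) (mul_pos ht he)) hZ
  have := hE
  obtain ⟨J₁, hJ₁⟩ := hLK Hm
  obtain ⟨J₂, hJ₂⟩ := goodR_log T f hGR (1 / 2) hf e he
  obtain ⟨J, hJ0, hJ1, hJ2, hJ3⟩ : ∃ J : ℕ, J₀ ≤ J ∧ J₁ ≤ J ∧ J₂ ≤ J ∧ 1 ≤ J :=
    ⟨max (max J₀ J₁) (max J₂ 1), le_trans (le_max_left _ _) (le_max_left _ _),
      le_trans (le_max_right _ _) (le_max_left _ _), le_trans (le_max_left _ _) (le_max_right _ _),
      le_trans (le_max_right _ _) (le_max_right _ _)⟩
  obtain ⟨G, W, hGo, hGm, hW1, hWc, hWp, hGW⟩ := hJ₀ J hJ0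
  have hLam := hJ₁ J hJ1 W hW1 hWc hWp
  obtain ⟨D, hD⟩ := hJ₂ J hJ2
  have hJpos : (0 : ℝ) < J := by exact_mod_cast hJ3
  have hmax : ∀ n, |maxw W J n| ≤ 1 := fun n => by
    obtain ⟨h1, h2, -⟩ := maxw_mem W hW1 J n
    rw [abs_of_nonneg h1]
    exact h2
  have ev1 := hlav (maxw W J) hmax e he
  have ev2 := emp_open S ν N h hN1 hh1 y hconv G hGo (2 * e) e he hGm
  have ev3 := hh.eventually_ge_atTop ⌈(J : ℝ) / e⌉₊
  have ev4 := (lw_tendsto.comp hN).eventually_ge_atTop (D / (e * J))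
  have ev5 := hNh.eventually_ge_atTop (1 / e)
  have ev6 := (lw_tendsto.comp hN).eventually_ge_atTop 1
  have ev7 := hlogT.eventually_ge_atTop 1
  have hle : ((hyperfilter ℕ : Ultrafilter ℕ) : Filter ℕ) ≤ atTop := Nat.hyperfilter_le_atTop
  have hall : ∀ᶠ k in ((hyperfilter ℕ : Ultrafilter ℕ) : Filter ℕ),
      ∑ x ∈ range (N k), ‖∑ n ∈ range (h k), mc (x + n) * g (S^[n] (y k x))‖ / ((x : ℝ) + 1) ≤
        ε * h k * Real.log (N k) := by
    filter_upwards [ev1, hle ev2, hle ev3, hle ev4, hle ev5, hle ev6, hle ev7] with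
      k h1 h2 h3 h4 h5 h6 h7
    have hkey := key_bound T S f g hg1 J hJ3 e he G W hW1 hGW D hD (N k) (h k) (y k)
    refine hkey.trans ?_
    clear hkey
    obtain ⟨B, hB⟩ : ∃ B : ℝ, B = ∑ x ∈ range (N k), (∑ n ∈ range (h k),
      (if S^[n] (y k x) ∈ G then (0 : ℝ) else 1)) / ((x : ℝ) + 1) := ⟨_, rfl⟩
    obtain ⟨M, hM'⟩ : ∃ M : ℝ, M = ∑ x ∈ range (N k), maxw W J x / ((x : ℝ) + 1) := ⟨_, rfl⟩
    rw [← hB] at h2 ⊢
    have hL0 : 0 < lw (N k) := lw_pos (hN1 k)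
    have hH0 : (0 : ℝ) < h k := by exact_mod_cast hh1 k
    obtain ⟨-, hlw⟩ := lw_log (N k) (hN1 k)
    obtain ⟨hlw', -⟩ := lw_log (N k) (hN1 k)
    have h1' : M ≤ 2 * e * lw (N k) := by
      have h8 : lav (N k) (maxw W J) ≤ 2 * e := by linarith
      unfold lav at h8
      rw [div_le_iff₀ hL0, ← hM'] at h8
      exact h8
    rw [← hM']
    have h3' : (J : ℝ) ≤ e * h k := by
      have h8 : (J : ℝ) / e ≤ h k := (Nat.le_ceil _).trans (by exact_mod_cast h3)
      rw [div_le_iff₀ he] at h8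
      linarith
    simp only [Function.comp_apply] at h4 h6
    have h4' : D / J ≤ e * lw (N k) := by
      rw [div_le_iff₀ (by positivity)] at h4
      rw [div_le_iff₀ hJpos]
      linarith
    have h5' : (h k : ℝ) ≤ e * lw (N k) := by
      rw [div_le_div_iff₀ he hH0, one_mul] at h5
      have h8 := mul_le_mul_of_nonneg_left hlw' he.le
      linarith
    obtain ⟨l, hl⟩ : ∃ l : ℝ, l = lw (N k) := ⟨_, rfl⟩
    obtain ⟨r, hr⟩ : ∃ r : ℝ, r = (h k : ℝ) := ⟨_, rfl⟩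
    obtain ⟨q, hq⟩ : ∃ q : ℝ, q = Real.log (N k) := ⟨_, rfl⟩
    obtain ⟨d, hd⟩ : ∃ d : ℝ, d = D / (J : ℝ) := ⟨_, rfl⟩
    obtain ⟨j, hj⟩ : ∃ j : ℝ, j = (J : ℝ) := ⟨_, rfl⟩
    rw [← hl] at h1' h2 h4' h5' h6 hlw hL0 ⊢
    rw [← hr] at h2 h3' h5' hH0 ⊢
    rw [← hq] at h7 hlw ⊢
    rw [← hd] at h4' ⊢
    rw [← hj] at h3' ⊢
    have hel : e ≤ e * l := by nlinarith
    have a1 : r * (e * (l + 1) + d + r) ≤ r * (4 * (e * l)) :=
      mul_le_mul_of_nonneg_left (by linarith) hH0.le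
    have a2 : r * (M + r) ≤ r * (3 * (e * l)) :=
      mul_le_mul_of_nonneg_left (by linarith) hH0.le
    have a3 : j * l ≤ e * r * l := mul_le_mul_of_nonneg_right h3' hL0.le
    have a4 : l ≤ 2 * q := by linarith
    have a5 : 13 * (e * r) * l ≤ 13 * (e * r) * (2 * q) :=
      mul_le_mul_of_nonneg_left a4 (by positivity)
    have a6 : 26 * e * (r * q) ≤ ε * (r * q) :=
      mul_le_mul_of_nonneg_right hε26 (mul_nonneg hH0.le (by linarith))
    linarith
  exact hall.frequently.filter_mono hle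

end Pool.Agent.Lib.MP_3e612f_nt.ZE
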