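import Pool.Agent.Lib.MP_3e612f_nt.ZE.H.Limit

/-! Project ZE, part H: Theorem H. -/

set_option autoImplicit false

namespace Pool.Agent.Lib.MP_3e612f_nt.ZE

open Finset MeasureTheory Filter Topology
open Pool.Agent.Lib.MP_3e612f_nt.PI (mc)

/-- Otherwise there are `ε` and for each `k` some `h k ≥ k + 1`, `N k` with `log (N k) ≥ (k + 1) h k`, `y k ∈ F` with the sum `> ε h log N`. `exists_llim` and `win_limit` (for the subsequence) contradict this. Pattern: `unif_modl` (Lib/MP_3e612f_nt/NF/E/Unif). -/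
theorem windows (hL : StmtL) {Y : Type} [MetricSpace Y] [CompactSpace Y] [MeasurableSpace Y] [BorelSpace Y] (S : Y → Y) (hS : Continuous S) (g : Y → ℂ) (hg : Continuous g) (hg1 : ∀ y, ‖g y‖ ≤ 1 / 2) (F : Set (ℕ → Y))
    (H : ∀ ν : Measure Y, IsProbabilityMeasure ν → LLim S F ν → ZEnt S g ν ∧ ∀ (K : ℕ) (t : ℝ), 0 < t → ModU S g K ν t) :
    ∀ ε : ℝ, 0 < ε → ∃ h₀ : ℕ, ∀ h ≥ h₀, ∃ N₀ : ℕ, ∀ N ≥ N₀, ∀ y ∈ F,
      ∑ x ∈ range N, ‖∑ n ∈ range h, mc (x + n) * g (S^[n] (y x))‖ / ((x : ℝ) + 1) ≤ ε * h * Real.log N := by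
  intro ε hε
  by_contra hcon
  push Not at hcon
  have key : ∀ k : ℕ, ∃ (h N : ℕ) (y : ℕ → Y), k + 1 ≤ h ∧ 1 ≤ N ∧
      ((k : ℝ) + 1) * h ≤ Real.log N ∧ y ∈ F ∧ ε * h * Real.log N <
        ∑ x ∈ range N, ‖∑ n ∈ range h, mc (x + n) * g (S^[n] (y x))‖ / ((x : ℝ) + 1) := by
    intro k
    obtain ⟨h, hk, hN⟩ := hcon (k + 1)
    obtain ⟨N, hN1, y, hy, hlt⟩ := hN (max 1 ⌈Real.exp (((k : ℝ) + 1) * h)⌉₊)
    have h1 : Real.exp (((k : ℝ) + 1) * h) ≤ N :=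
      (Nat.le_ceil _).trans (by exact_mod_cast (le_max_right _ _).trans hN1)
    have h2 : ((k : ℝ) + 1) * h ≤ Real.log N :=
      (Real.le_log_iff_exp_le ((Real.exp_pos _).trans_le h1)).2 h1
    exact ⟨h, N, y, hk, (le_max_left _ _).trans hN1, h2, hy, hlt⟩
  choose h N y h1 h2 h3 h4 h5 using key
  have hh1 : ∀ k, 1 ≤ h k := fun k => (Nat.le_add_left 1 k).trans (h1 k)
  have hh : Tendsto h atTop atTop :=
    tendsto_atTop_mono (fun k => (Nat.le_succ k).trans (h1 k)) tendsto_id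
  have hNh : Tendsto (fun k => Real.log (N k) / (h k : ℝ)) atTop atTop := by
    refine tendsto_atTop_mono (fun k => ?_) (tendsto_natCast_atTop_atTop (R := ℝ))
    have hp : (0 : ℝ) < h k := by exact_mod_cast hh1 k
    rw [le_div_iff₀ hp]
    refine le_trans (mul_le_mul_of_nonneg_right ?_ hp.le) (h3 k)
    linarith
  obtain ⟨ν, ms, hms, hLν, hconv⟩ := exists_llim S F N h h2 hh1 y h4 hh hNh
  obtain ⟨hZ, hM⟩ := H ν inferInstance hLν
  have hw := win_limit hL S hS g hg hg1 ν hZ hM (fun k => N (ms k)) (fun k => h (ms k))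
    (fun k => h2 _) (fun k => hh1 _) (fun k => y (ms k)) (hh.comp hms.tendsto_atTop)
    (hNh.comp hms.tendsto_atTop) hconv ε hε
  obtain ⟨k, hk⟩ := hw.exists
  exact absurd hk (not_le.2 (h5 (ms k)))

end Pool.Agent.Lib.MP_3e612f_nt.ZE
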