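import Pool.Agent.Lib.MP_3e612f_nt.ZE.F.Avg

/-! Project ZE, part H: elementary properties of the local box norms of words. -/

set_option autoImplicit false

namespace Pool.Agent.Lib.MP_3e612f_nt.ZE

open Finset MeasureTheory Filter Topology

private theorem hpsi_conj {a b : ℂ} (ha : ‖a‖ ≤ 1) (hb : ‖b‖ ≤ 1) :
    ‖a * (starRingEnd ℂ) b‖ ≤ 1 := by
  rw [norm_mul, Complex.norm_conj]
  exact mul_le_one₀ ha (norm_nonneg _) hb

private theorem hpsi_avg (H : ℕ) (f : ℕ → ℕ → ℝ) (C : ℝ) (hC : 0 ≤ C) (hf : ∀ a b, f a b ≤ C) :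
    (∑ a ∈ range H, ∑ b ∈ range H, f a b) / (H : ℝ) ^ 2 ≤ C := by
  have h1 : ∑ a ∈ range H, ∑ b ∈ range H, f a b ≤ C * (H : ℝ) ^ 2 := by
    calc ∑ a ∈ range H, ∑ b ∈ range H, f a b
        ≤ ∑ a ∈ range H, ∑ b ∈ range H, C :=
          Finset.sum_le_sum fun a _ => Finset.sum_le_sum fun b _ => hf a b
      _ = C * (H : ℝ) ^ 2 := by
          simp only [Finset.sum_const, Finset.card_range, nsmul_eq_mul]
          ring
  exact div_le_of_le_mul₀ (sq_nonneg _) hC h1

private theorem hpsi_avg1 (H : ℕ) (u : ℕ → ℂ) (C : ℝ) (hC : 0 ≤ C) (hu : ∀ a, ‖u a‖ ≤ C) :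
    ‖(∑ a ∈ range H, u a) / (H : ℂ)‖ ≤ C := by
  rw [norm_div, Complex.norm_natCast]
  refine div_le_of_le_mul₀ (Nat.cast_nonneg _) hC ?_
  calc ‖∑ a ∈ range H, u a‖ ≤ ∑ a ∈ range H, ‖u a‖ := norm_sum_le _ _
    _ ≤ ∑ a ∈ range H, C := Finset.sum_le_sum fun a _ => hu a
    _ = C * (H : ℝ) := by
        rw [Finset.sum_const, Finset.card_range, nsmul_eq_mul, mul_comm]

/-- Induction on `k`. -/
theorem psi_shift (H k : ℕ) (w : ℕ → ℂ) (j n : ℕ) : psi H k w (j + n) = psi H k (fun m => w (m + n)) j := by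
  induction k generalizing w with
  | zero =>
    show ‖(∑ a ∈ range H, w (j + n + a)) / (H : ℂ)‖ ^ 2 =
      ‖(∑ a ∈ range H, w (j + a + n)) / (H : ℂ)‖ ^ 2
    rw [Finset.sum_congr rfl fun a _ => by rw [add_right_comm]]
  | succ k ih =>
    show (∑ a ∈ range H, ∑ b ∈ range H,
        psi H k (fun m => w (m + a) * (starRingEnd ℂ) (w (m + b))) (j + n)) / (H : ℝ) ^ 2 =
      (∑ a ∈ range H, ∑ b ∈ range H,
        psi H k (fun m => w (m + a + n) * (starRingEnd ℂ) (w (m + b + n))) j) / (H : ℝ) ^ 2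
    refine congrArg (fun t => t / (H : ℝ) ^ 2) ?_
    refine Finset.sum_congr rfl fun a _ => Finset.sum_congr rfl fun b _ => ?_
    rw [ih]
    refine congrArg (fun u => psi H k u j) (funext fun m => ?_)
    show w (m + n + a) * (starRingEnd ℂ) (w (m + n + b)) =
      w (m + a + n) * (starRingEnd ℂ) (w (m + b + n))
    rw [add_right_comm m n a, add_right_comm m n b]

/-- Induction on `k`. -/
theorem psi_le_one (H k : ℕ) (w : ℕ → ℂ) (hw : ∀ n, ‖w n‖ ≤ 1) (j : ℕ) : psi H k w j ≤ 1 := by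
  induction k generalizing w with
  | zero =>
    show ‖(∑ a ∈ range H, w (j + a)) / (H : ℂ)‖ ^ 2 ≤ 1
    exact pow_le_one₀ (norm_nonneg _) (hpsi_avg1 H _ 1 zero_le_one fun a => hw _)
  | succ k ih =>
    exact hpsi_avg H (fun a b => psi H k (fun n => w (n + a) * (starRingEnd ℂ) (w (n + b))) j) 1
      zero_le_one fun a b => ih _ fun n => hpsi_conj (hw _) (hw _)

/-- Induction on `k`: `‖w(n+a) conj w(n+b) - w'(n+a) conj w'(n+b)‖ ≤ 2 d`; for `k = 0`: `| |u|² - |u'|² | ≤ 2 |u - u'|`. -/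
theorem psi_lip (H k : ℕ) (w w' : ℕ → ℂ) (hw : ∀ n, ‖w n‖ ≤ 1) (hw' : ∀ n, ‖w' n‖ ≤ 1) (d : ℝ) (hd : ∀ n, ‖w n - w' n‖ ≤ d) (j : ℕ) :
    |psi H k w j - psi H k w' j| ≤ 2 ^ (k + 1) * d := by
  induction k generalizing w w' d with
  | zero =>
    have hd0 : 0 ≤ d := le_trans (norm_nonneg _) (hd 0)
    show |‖(∑ a ∈ range H, w (j + a)) / (H : ℂ)‖ ^ 2 -
      ‖(∑ a ∈ range H, w' (j + a)) / (H : ℂ)‖ ^ 2| ≤ 2 ^ (0 + 1) * d
    have h1 : ‖(∑ a ∈ range H, w (j + a)) / (H : ℂ)‖ ≤ 1 :=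
      hpsi_avg1 H _ 1 zero_le_one fun a => hw _
    have h2 : ‖(∑ a ∈ range H, w' (j + a)) / (H : ℂ)‖ ≤ 1 :=
      hpsi_avg1 H _ 1 zero_le_one fun a => hw' _
    have h3 : ‖(∑ a ∈ range H, w (j + a)) / (H : ℂ) - (∑ a ∈ range H, w' (j + a)) / (H : ℂ)‖ ≤
        d := by
      rw [← sub_div, ← Finset.sum_sub_distrib]
      exact hpsi_avg1 H (fun a => w (j + a) - w' (j + a)) d hd0 fun a => hd _
    have h4 := abs_norm_sub_norm_le ((∑ a ∈ range H, w (j + a)) / (H : ℂ))
      ((∑ a ∈ range H, w' (j + a)) / (H : ℂ))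
    rw [sq_sub_sq, abs_mul, zero_add, pow_one]
    have h5 : |‖(∑ a ∈ range H, w (j + a)) / (H : ℂ)‖ +
        ‖(∑ a ∈ range H, w' (j + a)) / (H : ℂ)‖| ≤ 2 := by
      rw [abs_of_nonneg (add_nonneg (norm_nonneg _) (norm_nonneg _))]
      linarith
    exact mul_le_mul h5 (h4.trans h3) (abs_nonneg _) (by norm_num)
  | succ k ih =>
    have hd0 : 0 ≤ d := le_trans (norm_nonneg _) (hd 0)
    have h1 : ∀ a b : ℕ, |psi H k (fun n => w (n + a) * (starRingEnd ℂ) (w (n + b))) j -
        psi H k (fun n => w' (n + a) * (starRingEnd ℂ) (w' (n + b))) j| ≤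
          2 ^ (k + 1) * (2 * d) := by
      intro a b
      refine ih _ _ (fun n => hpsi_conj (hw _) (hw _)) (fun n => hpsi_conj (hw' _) (hw' _)) _
        fun n => ?_
      have h2 : w (n + a) * (starRingEnd ℂ) (w (n + b)) -
          w' (n + a) * (starRingEnd ℂ) (w' (n + b)) =
          (w (n + a) - w' (n + a)) * (starRingEnd ℂ) (w (n + b)) +
            w' (n + a) * (starRingEnd ℂ) (w (n + b) - w' (n + b)) := by
        rw [map_sub]
        ring
      rw [h2]
      refine (norm_add_le _ _).trans ?_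
      rw [norm_mul, norm_mul, Complex.norm_conj, Complex.norm_conj]
      have h3 := mul_le_mul (hd (n + a)) (hw (n + b)) (norm_nonneg _) hd0
      have h4 := mul_le_mul (hw' (n + a)) (hd (n + b)) (norm_nonneg _) zero_le_one
      linarith
    show |(∑ a ∈ range H, ∑ b ∈ range H,
        psi H k (fun n => w (n + a) * (starRingEnd ℂ) (w (n + b))) j) / (H : ℝ) ^ 2 -
      (∑ a ∈ range H, ∑ b ∈ range H,
        psi H k (fun n => w' (n + a) * (starRingEnd ℂ) (w' (n + b))) j) / (H : ℝ) ^ 2| ≤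
      2 ^ (k + 1 + 1) * d
    rw [← sub_div, ← Finset.sum_sub_distrib, abs_div, abs_of_nonneg (sq_nonneg (H : ℝ))]
    have h5 : |∑ a ∈ range H, ((∑ b ∈ range H,
        psi H k (fun n => w (n + a) * (starRingEnd ℂ) (w (n + b))) j) -
        ∑ b ∈ range H, psi H k (fun n => w' (n + a) * (starRingEnd ℂ) (w' (n + b))) j)| ≤
        ∑ a ∈ range H, ∑ b ∈ range H, |psi H k (fun n => w (n + a) * (starRingEnd ℂ) (w (n + b))) j -
          psi H k (fun n => w' (n + a) * (starRingEnd ℂ) (w' (n + b))) j| := by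
      refine (Finset.abs_sum_le_sum_abs _ _).trans (Finset.sum_le_sum fun a _ => ?_)
      rw [← Finset.sum_sub_distrib]
      exact Finset.abs_sum_le_sum_abs _ _
    refine (div_le_div_of_nonneg_right h5 (sq_nonneg _)).trans ?_
    refine (hpsi_avg H _ (2 ^ (k + 1) * (2 * d)) (by positivity) h1).trans (le_of_eq ?_)
    ring

/-- Induction on `k`. -/
theorem psi_smul (H k : ℕ) (c : ℂ) (w : ℕ → ℂ) (j : ℕ) : psi H k (fun n => c * w n) j = ‖c‖ ^ (2 ^ (k + 1)) * psi H k w j := by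
  induction k generalizing c w with
  | zero =>
    show ‖(∑ a ∈ range H, c * w (j + a)) / (H : ℂ)‖ ^ 2 =
      ‖c‖ ^ (2 ^ (0 + 1)) * ‖(∑ a ∈ range H, w (j + a)) / (H : ℂ)‖ ^ 2
    rw [← Finset.mul_sum, mul_div_assoc, norm_mul, mul_pow, zero_add, pow_one]
  | succ k ih =>
    have h1 : ∀ a b : ℕ, psi H k (fun n => (c * w (n + a)) * (starRingEnd ℂ) (c * w (n + b))) j =
        ‖c‖ ^ (2 ^ (k + 1 + 1)) *
          psi H k (fun n => w (n + a) * (starRingEnd ℂ) (w (n + b))) j := by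
      intro a b
      have h2 : (fun n => (c * w (n + a)) * (starRingEnd ℂ) (c * w (n + b))) =
          fun n => (c * (starRingEnd ℂ) c) * (w (n + a) * (starRingEnd ℂ) (w (n + b))) := by
        funext n
        rw [map_mul]
        ring
      rw [h2, ih, norm_mul, Complex.norm_conj, ← sq, ← pow_mul]
      refine congrArg (fun e => ‖c‖ ^ e * _) ?_
      ring
    show (∑ a ∈ range H, ∑ b ∈ range H,
        psi H k (fun n => (c * w (n + a)) * (starRingEnd ℂ) (c * w (n + b))) j) / (H : ℝ) ^ 2 =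
      ‖c‖ ^ (2 ^ (k + 1 + 1)) * ((∑ a ∈ range H, ∑ b ∈ range H,
        psi H k (fun n => w (n + a) * (starRingEnd ℂ) (w (n + b))) j) / (H : ℝ) ^ 2)
    rw [← mul_div_assoc, Finset.mul_sum]
    refine congrArg (fun t => t / (H : ℝ) ^ 2) (Finset.sum_congr rfl fun a _ => ?_)
    rw [Finset.mul_sum]
    exact Finset.sum_congr rfl fun b _ => h1 a b

/-- Induction on `k`. -/
theorem psi_cont {P : Type} [TopologicalSpace P] (H k : ℕ) (w : P → ℕ → ℂ) (hw : ∀ n, Continuous fun p => w p n) (j : ℕ) : Continuous fun p => psi H k (w p) j := by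
  induction k generalizing w with
  | zero =>
    show Continuous fun p => ‖(∑ a ∈ range H, w p (j + a)) / (H : ℂ)‖ ^ 2
    exact (((continuous_finset_sum _ fun a _ => hw (j + a)).div_const _).norm).pow 2
  | succ k ih =>
    show Continuous fun p => (∑ a ∈ range H, ∑ b ∈ range H,
      psi H k (fun n => w p (n + a) * (starRingEnd ℂ) (w p (n + b))) j) / (H : ℝ) ^ 2
    refine (continuous_finset_sum _ fun a _ => continuous_finset_sum _ fun b _ => ?_).div_const _
    exact ih (fun p n => w p (n + a) * (starRingEnd ℂ) (w p (n + b)))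
      fun n => (hw (n + a)).mul (Complex.continuous_conj.comp (hw (n + b)))

/-- Induction on `k`. -/
theorem psi_meas {P : Type} [MeasurableSpace P] (H k : ℕ) (w : P → ℕ → ℂ) (hw : ∀ n, Measurable fun p => w p n) (j : ℕ) : Measurable fun p => psi H k (w p) j := by
  induction k generalizing w with
  | zero =>
    show Measurable fun p => ‖(∑ a ∈ range H, w p (j + a)) / (H : ℂ)‖ ^ 2
    exact (((Finset.measurable_sum _ fun a _ => hw (j + a)).div_const _).norm).pow_const 2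
  | succ k ih =>
    show Measurable fun p => (∑ a ∈ range H, ∑ b ∈ range H,
      psi H k (fun n => w p (n + a) * (starRingEnd ℂ) (w p (n + b))) j) / (H : ℝ) ^ 2
    refine Measurable.div_const ?_ _
    refine Finset.measurable_sum _ fun a _ => Finset.measurable_sum _ fun b _ => ?_
    exact ih (fun p n => w p (n + a) * (starRingEnd ℂ) (w p (n + b)))
      fun n => (hw (n + a)).mul (Complex.continuous_conj.measurable.comp (hw (n + b)))

/-- With a measurable scale: `measurable_from_prod_countable` or a countable partition. -/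
theorem psi_meas_scale {P : Type} [MeasurableSpace P] (HH : P → ℕ) (hH : Measurable HH) (k : ℕ) (w : P → ℕ → ℂ) (hw : ∀ n, Measurable fun p => w p n) (j : ℕ) :
    Measurable fun p => psi (HH p) k (w p) j := by
  have h1 : Measurable fun q : ℕ × P => psi q.1 k (w q.2) j := by
    refine measurable_from_prod_countable_right fun n => ?_
    exact psi_meas n k w hw j
  exact h1.comp (hH.prodMk measurable_id)

end Pool.Agent.Lib.MP_3e612f_nt.ZE
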