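import Pool.Agent.Lib.MP_3e612f_nt.ZE.H.Sums

/-! Project ZE, part H: from the windows to the logarithmic averages. -/

set_option autoImplicit false

namespace Pool.Agent.Lib.MP_3e612f_nt.ZE

open Finset MeasureTheory Filter Topology

private theorem q1_shift_one (c : ℕ → ℂ) (hc : ∀ n, ‖c n‖ ≤ 1) (N : ℕ) :
    ‖∑ x ∈ range N, c (x + 1) / ((x : ℂ) + 1) - ∑ x ∈ range N, c x / ((x : ℂ) + 1)‖ ≤ 2 := by
  have key : ∀ M : ℕ, ‖∑ x ∈ range (M + 1), c (x + 1) / ((x : ℂ) + 1) -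
      ∑ x ∈ range (M + 1), c x / ((x : ℂ) + 1) - c (M + 1) / ((M : ℂ) + 1)‖ ≤
      2 - 1 / ((M : ℝ) + 1) := by
    intro M
    induction M with
    | zero =>
      simp only [zero_add, Finset.sum_range_one, Nat.cast_zero, div_one]
      rw [sub_right_comm, sub_self, zero_sub, norm_neg]
      have := hc 0
      linarith
    | succ M ih =>
      rw [Finset.sum_range_succ (fun x => c (x + 1) / ((x : ℂ) + 1)) (M + 1),
        Finset.sum_range_succ (fun x => c x / ((x : ℂ) + 1)) (M + 1)]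
      have hp1 : (0 : ℝ) < (M : ℝ) + 1 := by positivity
      have hp2 : (0 : ℝ) < (M : ℝ) + 2 := by positivity
      have e1 : (((M + 1 : ℕ) : ℂ) + 1) = (M : ℂ) + 2 := by
        push_cast
        ring
      have e2 : (((M + 1 : ℕ) : ℝ) + 1) = (M : ℝ) + 2 := by
        push_cast
        ring
      have e3 : (M : ℂ) + 1 ≠ 0 := by exact_mod_cast Nat.succ_ne_zero M
      have e4 : (M : ℂ) + 2 ≠ 0 := by exact_mod_cast Nat.succ_ne_zero (M + 1)
      rw [e1, e2]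
      obtain ⟨S, hS⟩ : ∃ S : ℂ, S = ∑ x ∈ range (M + 1), c (x + 1) / ((x : ℂ) + 1) := ⟨_, rfl⟩
      obtain ⟨S', hS'⟩ : ∃ S : ℂ, S = ∑ x ∈ range (M + 1), c x / ((x : ℂ) + 1) := ⟨_, rfl⟩
      rw [← hS, ← hS'] at ih ⊢
      have h1 : S + c (M + 1 + 1) / ((M : ℂ) + 2) - (S' + c (M + 1) / ((M : ℂ) + 2)) -
          c (M + 1 + 1) / ((M : ℂ) + 2) = (S - S' - c (M + 1) / ((M : ℂ) + 1)) +
          c (M + 1) * (1 / ((M : ℂ) + 1) - 1 / ((M : ℂ) + 2)) := by
        field_simp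
        ring
      have h2 : ‖c (M + 1) * (1 / ((M : ℂ) + 1) - 1 / ((M : ℂ) + 2))‖ ≤
          1 / ((M : ℝ) + 1) - 1 / ((M : ℝ) + 2) := by
        have h3 : (1 / ((M : ℂ) + 1) - 1 / ((M : ℂ) + 2)) =
            ((1 / ((M : ℝ) + 1) - 1 / ((M : ℝ) + 2) : ℝ) : ℂ) := by
          push_cast
          rfl
        have h4 : 0 ≤ 1 / ((M : ℝ) + 1) - 1 / ((M : ℝ) + 2) := by
          rw [sub_nonneg]
          exact one_div_le_one_div_of_le hp1 (by linarith)
        rw [norm_mul, h3, Complex.norm_real, Real.norm_eq_abs, abs_of_nonneg h4]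
        exact mul_le_of_le_one_left h4 (hc _)
      rw [h1]
      refine (norm_add_le _ _).trans ?_
      linarith
  rcases Nat.eq_zero_or_pos N with rfl | hN
  · simp
  · obtain ⟨M, rfl⟩ := Nat.exists_eq_succ_of_ne_zero hN.ne'
    simp only [Nat.succ_eq_add_one]
    have h1 := key M
    have hp1 : (0 : ℝ) < (M : ℝ) + 1 := by positivity
    have h2 : ‖c (M + 1) / ((M : ℂ) + 1)‖ ≤ 1 / ((M : ℝ) + 1) := by
      have h3 : ((M : ℂ) + 1) = (((M : ℝ) + 1 : ℝ) : ℂ) := by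
        push_cast
        rfl
      rw [norm_div, h3, Complex.norm_real, Real.norm_eq_abs, abs_of_pos hp1]
      exact div_le_div_of_nonneg_right (hc _) hp1.le
    have h4 := norm_add_le
      (∑ x ∈ range (M + 1), c (x + 1) / ((x : ℂ) + 1) -
        ∑ x ∈ range (M + 1), c x / ((x : ℂ) + 1) - c (M + 1) / ((M : ℂ) + 1))
      (c (M + 1) / ((M : ℂ) + 1))
    rw [sub_add_cancel] at h4
    linarith

/-- As `log_shift`, for complex sequences: for `n = 1` the difference is at most `∑_{1≤x<N} (1/x - 1/(x+1)) + 1/N + 1 ≤ 2`. -/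
theorem log_shiftC (c : ℕ → ℂ) (hc : ∀ n, ‖c n‖ ≤ 1) (N n : ℕ) :
    ‖∑ x ∈ range N, c (x + n) / ((x : ℂ) + 1) - ∑ x ∈ range N, c x / ((x : ℂ) + 1)‖ ≤ 2 * n := by
  induction n with
  | zero => simp
  | succ n ih =>
    have h1 := q1_shift_one (fun x => c (x + n)) (fun x => hc _) N
    have h2 : ∑ x ∈ range N, c (x + (n + 1)) / ((x : ℂ) + 1) =
        ∑ x ∈ range N, c (x + 1 + n) / ((x : ℂ) + 1) :=
      Finset.sum_congr rfl fun x _ => by rw [show x + (n + 1) = x + 1 + n by ring]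
    rw [h2]
    have h3 := norm_add_le
      (∑ x ∈ range N, c (x + 1 + n) / ((x : ℂ) + 1) - ∑ x ∈ range N, c (x + n) / ((x : ℂ) + 1))
      (∑ x ∈ range N, c (x + n) / ((x : ℂ) + 1) - ∑ x ∈ range N, c x / ((x : ℂ) + 1))
    rw [sub_add_sub_cancel] at h3
    push_cast
    linarith

/-- `∑_{1≤n≤N} c n / n = ∑_{x<N} c (x+1)/(x+1)`; `h ∑_{x<N} c x/(x+1) = ∑_{x<N} (∑_{n<h} c (x+n))/(x+1) + O(2 h²)` by `log_shiftC`. -/
theorem q1_of_windows (c : ℕ → ℂ) (hc : ∀ n, ‖c n‖ ≤ 1)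
    (H : ∀ ε : ℝ, 0 < ε → ∃ h : ℕ, 1 ≤ h ∧ ∃ N₀ : ℕ, ∀ N ≥ N₀, ∑ x ∈ range N, ‖∑ n ∈ range h, c (x + n)‖ / ((x : ℝ) + 1) ≤ ε * h * Real.log N) :
    Tendsto (fun N : ℕ => (1 / (Real.log (N : ℝ) : ℂ)) * ∑ n ∈ Icc 1 N, c n / (n : ℂ)) atTop (𝓝 0) := by
  have hT : ∀ N : ℕ, ∑ n ∈ Icc 1 N, c n / (n : ℂ) = ∑ x ∈ range N, c (x + 1) / ((x : ℂ) + 1) := by
    intro N
    rw [Finset.range_eq_Ico, ← Finset.Ico_add_one_right_eq_Icc,
      ← Finset.sum_Ico_add' (fun n => c n / (n : ℂ)) 0 N 1]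
    refine Finset.sum_congr rfl fun x _ => ?_
    push_cast
    rfl
  have hlog : Tendsto (fun N : ℕ => Real.log (N : ℝ)) atTop atTop :=
    Real.tendsto_log_atTop.comp tendsto_natCast_atTop_atTop
  rw [Metric.tendsto_atTop]
  intro ε hε
  obtain ⟨h, hh1, N₀, hN₀⟩ := H (ε / 2) (by positivity)
  obtain ⟨N₁, hN₁⟩ := Filter.eventually_atTop.1
    (hlog.eventually_gt_atTop (max 1 ((2 * h + 2) / (ε / 2))))
  refine ⟨max N₀ N₁, fun N hN => ?_⟩
  have h1 := hN₀ N ((le_max_left _ _).trans hN)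
  have h2 := hN₁ N ((le_max_right _ _).trans hN)
  have hL1 : 1 < Real.log (N : ℝ) := lt_of_le_of_lt (le_max_left _ _) h2
  have hL2 : (2 * h + 2) / (ε / 2) < Real.log (N : ℝ) := lt_of_le_of_lt (le_max_right _ _) h2
  have hL0 : 0 < Real.log (N : ℝ) := by linarith
  have hh0 : (0 : ℝ) < h := by exact_mod_cast hh1
  rw [dist_zero_right, norm_mul, norm_div, norm_one, Complex.norm_real, Real.norm_eq_abs,
    abs_of_pos hL0, one_div, inv_mul_eq_div, div_lt_iff₀ hL0, hT]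
  rw [div_lt_iff₀ (by positivity)] at hL2
  obtain ⟨S, hS⟩ : ∃ S : ℂ, S = ∑ x ∈ range N, c x / ((x : ℂ) + 1) := ⟨_, rfl⟩
  have h3 := log_shiftC c hc N 1
  rw [← hS] at h3
  have h4 : ‖(h : ℂ) * S‖ ≤ ε / 2 * h * Real.log N + 2 * h * h := by
    have e1 : (h : ℂ) * S = ∑ x ∈ range N, (∑ n ∈ range h, c (x + n)) / ((x : ℂ) + 1) -
        ∑ n ∈ range h, (∑ x ∈ range N, c (x + n) / ((x : ℂ) + 1) - S) := by
      rw [Finset.sum_sub_distrib, Finset.sum_const, card_range, nsmul_eq_mul, Finset.sum_comm]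
      have e2 : ∑ x ∈ range N, ∑ n ∈ range h, c (x + n) / ((x : ℂ) + 1) =
          ∑ x ∈ range N, (∑ n ∈ range h, c (x + n)) / ((x : ℂ) + 1) :=
        Finset.sum_congr rfl fun x _ => (Finset.sum_div _ _ _).symm
      rw [e2]
      ring
    have e3 : ‖∑ x ∈ range N, (∑ n ∈ range h, c (x + n)) / ((x : ℂ) + 1)‖ ≤
        ε / 2 * h * Real.log N := by
      refine (norm_sum_le _ _).trans (le_trans (le_of_eq ?_) h1)
      refine Finset.sum_congr rfl fun x _ => ?_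
      have e4 : ((x : ℂ) + 1) = (((x : ℝ) + 1 : ℝ) : ℂ) := by
        push_cast
        rfl
      have e5 : (0 : ℝ) < (x : ℝ) + 1 := by positivity
      rw [norm_div, e4, Complex.norm_real, Real.norm_eq_abs, abs_of_pos e5]
    have e6 : ‖∑ n ∈ range h, (∑ x ∈ range N, c (x + n) / ((x : ℂ) + 1) - S)‖ ≤ 2 * h * h := by
      refine (norm_sum_le_of_le _ (f := fun n => ∑ x ∈ range N, c (x + n) / ((x : ℂ) + 1) - S)
        (n := fun _ => 2 * (h : ℝ)) fun n hn => ?_).trans (le_of_eq ?_)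
      · rw [hS]
        refine (log_shiftC c hc N n).trans ?_
        have : (n : ℝ) ≤ h := by exact_mod_cast (mem_range.1 hn).le
        linarith
      · rw [Finset.sum_const, card_range, nsmul_eq_mul]
        ring
    rw [e1]
    exact (norm_sub_le _ _).trans (by linarith)
  have h5 : ‖S‖ ≤ ε / 2 * Real.log N + 2 * h := by
    rw [norm_mul, Complex.norm_natCast] at h4
    have h6 : (h : ℝ) * ‖S‖ ≤ h * (ε / 2 * Real.log N + 2 * h) := by linarith
    exact le_of_mul_le_mul_left h6 hh0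
  have h7 := norm_add_le (∑ x ∈ range N, c (x + 1) / ((x : ℂ) + 1) - S) S
  rw [sub_add_cancel] at h7
  push_cast at h3
  linarith

end Pool.Agent.Lib.MP_3e612f_nt.ZE
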