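import Pool.Agent.Lib.MP_3e612f_nt.ZE.H.Defs
import Pool.Agent.Lib.MP_3e612f_nt.ZE.A.Lam1
import Pool.Agent.Lib.MP_3e612f_nt.LO.M.Models

/-! Project ZE, part H: logarithmic sums. -/

set_option autoImplicit false

namespace Pool.Agent.Lib.MP_3e612f_nt.ZE

open Finset MeasureTheory Filter Topology
open Pool.Agent.Lib.MP_3e612f_nt.PI (mc)
open Pool.Agent.Lib.MP_3e612f_nt.NF (GoodR)

/-- `log (N + 1) ≤ lw N ≤ 1 + log N` (harmonic numbers; `1 ≤ N` for the second). -/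
theorem lw_log (N : ℕ) (hN : 1 ≤ N) : Real.log N ≤ lw N ∧ lw N ≤ 1 + Real.log N := by
  have e : ((harmonic N : ℚ) : ℝ) = lw N := by
    unfold harmonic lw
    push_cast
    exact Finset.sum_congr rfl fun i _ => (one_div _).symm
  have h1 := log_add_one_le_harmonic N
  have h2 := harmonic_le_one_add_log N
  rw [e] at h1 h2
  have hN0 : (0 : ℝ) < N := by exact_mod_cast (show 0 < N from hN)
  refine ⟨le_trans (Real.log_le_log hN0 ?_) h1, h2⟩
  push_cast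
  linarith

theorem lw_nonneg (N : ℕ) : 0 ≤ lw N := Finset.sum_nonneg fun i _ => by positivity

private theorem log_shift_one (a : ℕ → ℝ) (A : ℝ) (h0 : ∀ n, 0 ≤ a n) (hA : ∀ n, a n ≤ A) (N : ℕ) :
    ∑ x ∈ range N, a (x + 1) / ((x : ℝ) + 1) ≤ ∑ x ∈ range N, a x / ((x : ℝ) + 1) + A := by
  have hA0 : 0 ≤ A := (h0 0).trans (hA 0)
  have key : ∀ M : ℕ, ∑ x ∈ range (M + 1), a (x + 1) / ((x : ℝ) + 1) + (A - a (M + 1)) / ((M : ℝ) + 1) ≤
      ∑ x ∈ range (M + 1), a x / ((x : ℝ) + 1) + A := by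
    intro M
    induction M with
    | zero =>
      simp only [zero_add, Finset.sum_range_one, Nat.cast_zero, div_one]
      have := h0 0
      linarith
    | succ M ih =>
      rw [Finset.sum_range_succ (fun x => a (x + 1) / ((x : ℝ) + 1)) (M + 1),
        Finset.sum_range_succ (fun x => a x / ((x : ℝ) + 1)) (M + 1)]
      have h1 : (0 : ℝ) < (M : ℝ) + 1 := by positivity
      have h2 : (0 : ℝ) < ((M + 1 : ℕ) : ℝ) + 1 := by positivity
      have h3 : (A - a (M + 1)) / (((M + 1 : ℕ) : ℝ) + 1) ≤ (A - a (M + 1)) / ((M : ℝ) + 1) := by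
        apply div_le_div_of_nonneg_left (sub_nonneg.2 (hA _)) h1
        push_cast
        linarith
      have h4 : a (M + 1 + 1) / (((M + 1 : ℕ) : ℝ) + 1) + (A - a (M + 1 + 1)) / (((M + 1 : ℕ) : ℝ) + 1) =
          (A - a (M + 1)) / (((M + 1 : ℕ) : ℝ) + 1) + a (M + 1) / (((M + 1 : ℕ) : ℝ) + 1) := by
        rw [← add_div, ← add_div]
        congr 1
        ring
      linarith
  rcases Nat.eq_zero_or_pos N with rfl | hN
  · simpa using hA0
  · obtain ⟨M, rfl⟩ := Nat.exists_eq_succ_of_ne_zero hN.ne'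
    have h1 := key M
    have h2 : 0 ≤ (A - a (M + 1)) / ((M : ℝ) + 1) :=
      div_nonneg (sub_nonneg.2 (hA _)) (by positivity)
    simp only [Nat.succ_eq_add_one]
    linarith

/-- For `n = 1`: `∑_{x<N} a(x+1)/(x+1) = ∑_{1≤x≤N} a(x)/x` and `∑_{1≤x<N} a(x) (1/x - 1/(x+1)) + a(N)/N ≤ A`. Induction on `n`. -/
theorem log_shift (a : ℕ → ℝ) (A : ℝ) (h0 : ∀ n, 0 ≤ a n) (hA : ∀ n, a n ≤ A) (N n : ℕ) :
    ∑ x ∈ range N, a (x + n) / ((x : ℝ) + 1) ≤ ∑ x ∈ range N, a x / ((x : ℝ) + 1) + n * A := by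
  induction n with
  | zero => simp
  | succ n ih =>
    have h1 := log_shift_one (fun x => a (x + n)) A (fun x => h0 _) (fun x => hA _) N
    have h2 : ∑ x ∈ range N, a (x + (n + 1)) / ((x : ℝ) + 1) =
        ∑ x ∈ range N, a (x + 1 + n) / ((x : ℝ) + 1) :=
      Finset.sum_congr rfl fun x _ => by rw [show x + (n + 1) = x + 1 + n by ring]
    rw [h2]
    push_cast
    linarith

/-- Abel summation: `A_x = ∑_{i<x} a i ≤ B x + A N₀` for all `x` and `∑_{x<N} a x/(x+1) = A_N/N + ∑_{1≤x<N} A_x (1/x - 1/(x+1))`. -/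
theorem log_abel (a : ℕ → ℝ) (A B : ℝ) (N₀ : ℕ) (h0 : ∀ n, 0 ≤ a n) (hA : ∀ n, a n ≤ A) (hB : 0 ≤ B)
    (H : ∀ N ≥ N₀, ∑ x ∈ range N, a x ≤ B * N) (N : ℕ) :
    ∑ x ∈ range N, a x / ((x : ℝ) + 1) ≤ B * (lw N + 1) + A * N₀ := by
  have hA0 : 0 ≤ A := (h0 0).trans (hA 0)
  have hS : ∀ M : ℕ, ∑ x ∈ range M, a x ≤ B * M + A * N₀ := by
    intro M
    rcases le_or_gt N₀ M with h | h
    · have h1 := H M h
      have h2 : 0 ≤ A * (N₀ : ℝ) := by positivity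
      linarith
    · have h1 : ∑ x ∈ range M, a x ≤ ∑ x ∈ range M, A := Finset.sum_le_sum fun x _ => hA x
      rw [Finset.sum_const, card_range, nsmul_eq_mul] at h1
      have h2 : (M : ℝ) ≤ N₀ := by exact_mod_cast h.le
      have h3 : (M : ℝ) * A ≤ N₀ * A := mul_le_mul_of_nonneg_right h2 hA0
      have h4 : 0 ≤ B * (M : ℝ) := by positivity
      linarith
  have key : ∀ M : ℕ, ∑ x ∈ range (M + 1), a x / ((x : ℝ) + 1) - (∑ x ∈ range (M + 1), a x) / ((M : ℝ) + 1) ≤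
      B * (lw (M + 1) - 1) + A * N₀ * (1 - 1 / ((M : ℝ) + 1)) := by
    intro M
    induction M with
    | zero =>
      unfold lw
      simp
    | succ M ih =>
      have hlw : lw (M + 1 + 1) = lw (M + 1) + 1 / (((M + 1 : ℕ) : ℝ) + 1) := by
        unfold lw
        rw [Finset.sum_range_succ]
      rw [Finset.sum_range_succ (fun x => a x / ((x : ℝ) + 1)) (M + 1), Finset.sum_range_succ a (M + 1), hlw]
      have h1 := hS (M + 1)
      obtain ⟨S, hSd⟩ : ∃ S : ℝ, S = ∑ x ∈ range (M + 1), a x := ⟨_, rfl⟩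
      rw [← hSd] at ih h1 ⊢
      have hp1 : (0 : ℝ) < (M : ℝ) + 1 := by positivity
      have hp2 : (0 : ℝ) < (M : ℝ) + 2 := by positivity
      have hc : (((M + 1 : ℕ) : ℝ) + 1) = (M : ℝ) + 2 := by
        push_cast
        ring
      rw [hc]
      push_cast at h1
      have h2 : S / (((M : ℝ) + 1) * ((M : ℝ) + 2)) ≤
          (B * ((M : ℝ) + 1) + A * N₀) / (((M : ℝ) + 1) * ((M : ℝ) + 2)) :=
        div_le_div_of_nonneg_right h1 (by positivity)
      have h3 : (B * ((M : ℝ) + 1) + A * N₀) / (((M : ℝ) + 1) * ((M : ℝ) + 2)) =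
          B * (1 / ((M : ℝ) + 2)) + A * N₀ * (1 / ((M : ℝ) + 1) - 1 / ((M : ℝ) + 2)) := by
        field_simp
        ring
      have h4 : a (M + 1) / ((M : ℝ) + 2) - (S + a (M + 1)) / ((M : ℝ) + 2) =
          S / (((M : ℝ) + 1) * ((M : ℝ) + 2)) - S / ((M : ℝ) + 1) := by
        field_simp
        ring
      rw [h3] at h2
      linarith
  rcases Nat.eq_zero_or_pos N with rfl | hN
  · have h1 : 0 ≤ A * (N₀ : ℝ) := by positivity
    have h2 := lw_nonneg 0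
    rw [Finset.sum_range_zero]
    positivity
  · obtain ⟨M, rfl⟩ := Nat.exists_eq_succ_of_ne_zero hN.ne'
    simp only [Nat.succ_eq_add_one]
    have h1 := key M
    have hp1 : (0 : ℝ) < (M : ℝ) + 1 := by positivity
    have h2 : (∑ x ∈ range (M + 1), a x) / ((M : ℝ) + 1) ≤ (B * ((M : ℝ) + 1) + A * N₀) / ((M : ℝ) + 1) := by
      have := hS (M + 1)
      push_cast at this
      exact div_le_div_of_nonneg_right this hp1.le
    have h3 : (B * ((M : ℝ) + 1) + A * N₀) / ((M : ℝ) + 1) = B + A * N₀ * (1 / ((M : ℝ) + 1)) := by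
      field_simp
    rw [h3] at h2
    linarith

/-- The logarithmic form of `GoodR`, with the windows starting at `x + n`: for fixed `n` put `a m = ‖∑_{i<h} mc(m+i) f(T^i (z' m))‖`, `z' m = z (m - n)` for `m ≥ n`, `z' m = z 0` otherwise; `log_shift` and `log_abel` (`A = h C`, `B = ε h`). `D = h C N₀`. -/
theorem goodR_log {E : Type} (T : E → E) (f : E → ℂ) (hG : GoodR T f) (C : ℝ) (hC : ∀ x, ‖f x‖ ≤ C) (ε : ℝ) (hε : 0 < ε) :
    ∃ h₀ : ℕ, ∀ h ≥ h₀, ∃ D : ℝ, ∀ (N n : ℕ) (z : ℕ → E),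
      ∑ x ∈ range N, ‖∑ i ∈ range h, mc (x + (n + i)) * f (T^[i] (z x))‖ / ((x : ℝ) + 1) ≤ ε * h * (lw N + 1) + D + n * (h * C) := by
  obtain ⟨h₀, hh⟩ := hG ε hε
  refine ⟨h₀, fun h hh0 => ?_⟩
  obtain ⟨N₀, hN⟩ := hh h hh0
  refine ⟨h * C * N₀, fun N n z => ?_⟩
  obtain ⟨a, ha⟩ : ∃ a : ℕ → ℝ, a = fun m => ‖∑ i ∈ range h, mc (m + i) * f (T^[i] (z (m - n)))‖ := ⟨_, rfl⟩
  have ha0 : ∀ m, 0 ≤ a m := fun m => by
    rw [ha]
    exact norm_nonneg _
  have haA : ∀ m, a m ≤ h * C := fun m => by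
    have h1 : ∀ i ∈ range h, ‖mc (m + i) * f (T^[i] (z (m - n)))‖ ≤ C := fun i _ => by
      rw [norm_mul]
      calc ‖mc (m + i)‖ * ‖f (T^[i] (z (m - n)))‖ ≤ 1 * C :=
            mul_le_mul (LOM.mc_le (m + i)) (hC _) (norm_nonneg _) zero_le_one
        _ = C := one_mul _
    have h2 : ‖∑ i ∈ range h, mc (m + i) * f (T^[i] (z (m - n)))‖ ≤ ∑ i ∈ range h, C :=
      norm_sum_le_of_le _ h1
    rw [Finset.sum_const, card_range, nsmul_eq_mul] at h2
    rw [ha]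
    exact h2
  have h1 := log_shift a (h * C) ha0 haA N n
  have h2 := log_abel a (h * C) (ε * h) N₀ ha0 haA (by positivity) (fun M hM => by
    have := hN M hM (fun m => z (m - n))
    rw [ha]
    exact this) N
  have h3 : ∑ x ∈ range N, ‖∑ i ∈ range h, mc (x + (n + i)) * f (T^[i] (z x))‖ / ((x : ℝ) + 1) =
      ∑ x ∈ range N, a (x + n) / ((x : ℝ) + 1) := by
    refine Finset.sum_congr rfl fun x _ => ?_
    rw [ha]
    simp only [Nat.add_sub_cancel, Nat.add_assoc]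
  rw [h3]
  linarith

/-- `LOM.shift_le` for each `x`. -/
theorem win_log (a : ℕ → ℕ → ℂ) (G : ℝ) (ha : ∀ x n, ‖a x n‖ ≤ G) (N h J : ℕ) :
    (J : ℝ) * ∑ x ∈ range N, ‖∑ n ∈ range h, a x n‖ / ((x : ℝ) + 1) ≤
      ∑ n ∈ range h, ∑ x ∈ range N, ‖∑ i ∈ range J, a x (n + i)‖ / ((x : ℝ) + 1) + 2 * J * J * G * lw N := by
  rw [Finset.sum_comm, Finset.mul_sum]
  unfold lw
  rw [Finset.mul_sum, ← Finset.sum_add_distrib]
  refine Finset.sum_le_sum fun x _ => ?_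
  have h1 := LOM.shift_le (a x) G (ha x) h J
  have hx : (0 : ℝ) < (x : ℝ) + 1 := by positivity
  have h2 : (J : ℝ) * (‖∑ n ∈ range h, a x n‖ / ((x : ℝ) + 1)) =
      (J * ‖∑ n ∈ range h, a x n‖) / ((x : ℝ) + 1) := by ring
  have h3 : ∑ n ∈ range h, ‖∑ i ∈ range J, a x (n + i)‖ / ((x : ℝ) + 1) + 2 * J * J * G * (1 / ((x : ℝ) + 1)) =
      (∑ n ∈ range h, ‖∑ i ∈ range J, a x (n + i)‖ + 2 * J * J * G) / ((x : ℝ) + 1) := by
    rw [← Finset.sum_div]
    ring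
  rw [h2, h3]
  exact div_le_div_of_nonneg_right h1 hx.le

end Pool.Agent.Lib.MP_3e612f_nt.ZE
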