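import Pool.Agent.Lib.MP_3e612f_nt.ZE.H.Defs
import Pool.Agent.Lib.MP_3e612f_nt.ZE.H.Psi

/-! Project ZE, part H: the points which have a good partner. -/

set_option autoImplicit false

namespace Pool.Agent.Lib.MP_3e612f_nt.ZE

open Finset MeasureTheory Filter Topology

/-- the points which have a partner such that the mean local box norm of the word is less than `t` -/
def VJ {E Y : Type} (T : E → E) (S : Y → Y) (f : E → ℂ) (g : Y → ℂ) (HH : E → ℕ) (K J : ℕ) (t : ℝ) : Set Y :=
  {y | ∃ ξ : E, ∑ j ∈ range J, psi (HH ξ) K (wd T S f g (ξ, y)) j < t * J}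

/-- `psi_shift`, `Function.iterate_add_apply`, invariance of `HH` -/
theorem psi_wd_iter {E Y : Type} (T : E → E) (S : Y → Y) (f : E → ℂ) (g : Y → ℂ) (HH : E → ℕ) (hH : ∀ x, HH (T x) = HH x) (K : ℕ) (p : E × Y) (j : ℕ) :
    psi (HH p.1) K (wd T S f g p) j = psi (HH ((Prod.map T S)^[j] p).1) K (wd T S f g ((Prod.map T S)^[j] p)) 0 := by
  have hf' : ∀ (n : ℕ) (x : E), HH (T^[n] x) = HH x := by
    intro n
    induction n with
    | zero => intro x; rfl
    | succ n ih =>
      intro x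
      rw [Function.iterate_succ_apply, ih, hH]
  have h1 := psi_shift (HH p.1) K (wd T S f g p) 0 j
  rw [Nat.zero_add] at h1
  rw [h1]
  simp only [Prod.map_iterate, Prod.map_fst]
  rw [hf' j p.1]
  have h2 : (fun m => wd T S f g p (m + j)) = wd T S f g (Prod.map T^[j] S^[j] p) := by
    funext m
    simp only [wd, Prod.map_fst, Prod.map_snd, Function.iterate_add_apply]
  rw [h2]

/-- A union over `ξ` of open sets (`psi_cont`). -/
theorem VJ_open {E Y : Type} [TopologicalSpace Y] (T : E → E) (S : Y → Y) (hS : Continuous S) (f : E → ℂ) (g : Y → ℂ) (hg : Continuous g) (HH : E → ℕ) (K J : ℕ) (t : ℝ) :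
    IsOpen (VJ T S f g HH K J t) := by
  have h1 : VJ T S f g HH K J t =
      ⋃ ξ : E, {y | ∑ j ∈ range J, psi (HH ξ) K (wd T S f g (ξ, y)) j < t * J} := by
    ext y
    simp only [VJ, Set.mem_ofPred_eq, Set.mem_iUnion]
  rw [h1]
  refine isOpen_iUnion fun ξ => ?_
  refine isOpen_lt (continuous_finsetSum _ fun j _ => ?_) continuous_const
  refine psi_cont (HH ξ) K (fun y => wd T S f g (ξ, y)) (fun n => ?_) j
  have h2 : Continuous fun y : Y => g (S^[n] y) - f (T^[n] ξ) :=
    (hg.comp (hS.iterate n)).sub continuous_const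
  exact h2

/-- Markov: `Φ p = ∑_{j<J} psi (HH p.1) K (wd p) j = ∑_{j<J} φ ((T × S)^j p)` (`psi_wd_iter`), `∫ Φ = J ∫ φ ≤ J t τ`, so `lam {Φ ≥ t J} ≤ τ`, and `{Φ < t J} ⊆ snd⁻¹ V`. Pattern: `LOM.close_meas` (Lib/MP_3e612f_nt/LO/M/Models). The function `n ↦ wd T S f g p n` is measurable in `p`: it is `g (((T × S)^[n] p).2) - f (((T × S)^[n] p).1)`. -/
theorem VJ_meas {E Y : Type} [MeasurableSpace E] [MetricSpace Y] [MeasurableSpace Y] [BorelSpace Y] (T : E → E) (S : Y → Y) (hS : Continuous S)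
    (f : E → ℂ) (hf : Measurable f) (hf1 : ∀ x, ‖f x‖ ≤ 1 / 2) (g : Y → ℂ) (hg : Continuous g) (hg1 : ∀ y, ‖g y‖ ≤ 1 / 2) (HH : E → ℕ) (hHm : Measurable HH) (hH : ∀ x, HH (T x) = HH x)
    (lam : Measure (E × Y)) [IsProbabilityMeasure lam] (hinv : MeasurePreserving (Prod.map T S) lam lam) (K : ℕ) (t τ : ℝ) (ht : 0 < t)
    (hle : ∫ p, psi (HH p.1) K (wd T S f g p) 0 ∂lam ≤ t * τ) (J : ℕ) (hJ : 1 ≤ J) :
    1 - τ ≤ ((lam.map Prod.snd) (VJ T S f g HH K J t)).toReal := by
  set V : Set Y := VJ T S f g HH K J t with hV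
  have hVo : IsOpen V := VJ_open T S hS f g hg HH K J t
  have hJ0 : (0 : ℝ) < J := by exact_mod_cast hJ
  have hit : ∀ n, MeasurePreserving ((Prod.map T S)^[n]) lam lam := fun n => hinv.iterate n
  have hwm : ∀ n, Measurable fun p : E × Y => wd T S f g p n := by
    intro n
    have h1 : (fun p : E × Y => wd T S f g p n) =
        fun p => g (((Prod.map T S)^[n] p).2) - f (((Prod.map T S)^[n] p).1) := by
      funext p
      simp only [wd, Prod.map_iterate, Prod.map_fst, Prod.map_snd]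
    rw [h1]
    exact (hg.measurable.comp (measurable_snd.comp (hit n).measurable)).sub
      (hf.comp (measurable_fst.comp (hit n).measurable))
  have hw1 : ∀ (p : E × Y) (n : ℕ), ‖wd T S f g p n‖ ≤ 1 := by
    intro p n
    refine (norm_sub_le _ _).trans ?_
    have h1 := hg1 (S^[n] p.2)
    have h2 := hf1 (T^[n] p.1)
    linarith
  set φ : E × Y → ℝ := fun p => psi (HH p.1) K (wd T S f g p) 0 with hφ
  have hφ0 : ∀ p, 0 ≤ φ p := fun p => psi_nonneg _ _ _ _
  have hφm : Measurable φ :=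
    psi_meas_scale (fun p : E × Y => HH p.1) (hHm.comp measurable_fst) K (wd T S f g) hwm 0
  have hφi : Integrable φ lam := by
    refine Integrable.of_bound hφm.aestronglyMeasurable 1 (Eventually.of_forall fun p => ?_)
    rw [Real.norm_eq_abs, abs_of_nonneg (hφ0 p)]
    exact psi_le_one _ _ _ (hw1 p) 0
  set Φ : E × Y → ℝ := fun p => ∑ n ∈ range J, φ ((Prod.map T S)^[n] p) with hΦ
  have hΦint : ∫ p, Φ p ∂lam = J * ∫ p, φ p ∂lam := by
    have e1 : ∫ p, Φ p ∂lam = ∑ n ∈ range J, ∫ p, φ ((Prod.map T S)^[n] p) ∂lam :=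
      integral_finsetSum _ (fun n _ => ((hit n).integrable_comp hφm.aestronglyMeasurable).2 hφi)
    rw [e1, Finset.sum_congr rfl (fun n _ => ?_), Finset.sum_const, card_range, nsmul_eq_mul]
    have := integral_map (μ := lam) (hit n).measurable.aemeasurable (f := φ) hφm.aestronglyMeasurable
    rw [(hit n).map_eq] at this
    exact this.symm
  have hΦi : Integrable Φ lam :=
    integrable_finsetSum _ (fun n _ => ((hit n).integrable_comp hφm.aestronglyMeasurable).2 hφi)
  have hmark := mul_meas_ge_le_integral_of_nonneg (μ := lam) (f := Φ)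
    (Eventually.of_forall fun p => Finset.sum_nonneg fun n _ => hφ0 _) hΦi (t * J)
  have hbad : (lam {p | t * J ≤ Φ p}).toReal ≤ τ := by
    have h1 : t * J * (lam {p | t * J ≤ Φ p}).toReal ≤ J * (t * τ) := by
      refine hmark.trans ?_
      rw [hΦint]
      exact mul_le_mul_of_nonneg_left hle hJ0.le
    have h2 : 0 < t * J := by positivity
    have h3 : t * J * (lam {p | t * J ≤ Φ p}).toReal ≤ t * J * τ := by
      linarith
    exact le_of_mul_le_mul_left h3 h2
  rw [Measure.map_apply measurable_snd hVo.measurableSet]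
  have hsub : (Prod.snd ⁻¹' V : Set (E × Y))ᶜ ⊆ {p | t * J ≤ Φ p} := by
    intro p hp
    by_contra hcon
    simp only [Set.mem_ofPred_eq, not_le] at hcon
    apply hp
    refine ⟨p.1, lt_of_le_of_lt (le_of_eq ?_) hcon⟩
    refine Finset.sum_congr rfl fun n _ => ?_
    exact psi_wd_iter T S f g HH hH K p n
  have hc : (lam (Prod.snd ⁻¹' V)ᶜ).toReal ≤ τ :=
    (ENNReal.toReal_mono (measure_ne_top _ _) (measure_mono hsub)).trans hbad
  have hm : MeasurableSet (Prod.snd ⁻¹' V : Set (E × Y)) := measurable_snd hVo.measurableSet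
  rw [prob_compl_eq_one_sub hm, ENNReal.toReal_sub_of_le prob_le_one (by simp)] at hc
  simp only [ENNReal.toReal_one] at hc
  linarith

end Pool.Agent.Lib.MP_3e612f_nt.ZE
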